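import Pool.Agent.LibPS62.C5
import Pool.Agent.LibPS62.S3

/-!
# [PR57 C6A] Circles of sequences of pieces

A pattern `circ : List (Fin N ⊕ ℕ)`: `inl i` stands for the word `(Z i).flatten` (at most once for
each `i`), `inr m` for the word `c0 ^ m`.
* `isPat_finite`: lists of length at most `Q` with entries in the finite set of the `inl i` and the
  `inr m`, `m ≤ Q` (`List.finite_length_le` for a finite subtype, or the image of such a set).
* `bw_blP`, `pcs_blP`, ..: unfold; induction on `circ` (`List.flatMap_cons`).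
-/

set_option autoImplicit false

namespace Pool.Agent.PR

open Pool.Agent.PS

open Finset

variable {A : Type}

/-- the circle word of a pattern -/
def cwS (c0 : A) {N : ℕ} (Z : Fin N → List (List A)) (circ : List (Fin N ⊕ ℕ)) : List A :=
  (circ.map (Sum.elim (fun i => (Z i).flatten) (fun m => List.replicate m c0))).flatten

/-- a pattern -/
def IsPat {N : ℕ} (Q : ℕ) (circ : List (Fin N ⊕ ℕ)) : Prop :=
  circ.length ≤ Q ∧ (∀ m, Sum.inr m ∈ circ → m ≤ Q) ∧ (circ.filterMap Sum.getLeft?).Nodup

/-- the list of the blocks of a pattern -/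
def blP (c0 : A) {N : ℕ} (K : ℕ) (circ : List (Fin N ⊕ ℕ)) : List ((Fin N × Fin K) ⊕ List A) :=
  circ.flatMap (Sum.elim (fun i => List.ofFn fun k : Fin K => Sum.inl (i, k))
    fun m => [Sum.inr (List.replicate m c0)])

variable {X : Type} {N K Q : ℕ} {c0 : A}

theorem isPat_finite (N Q : ℕ) : {circ : List (Fin N ⊕ ℕ) | IsPat Q circ}.Finite := by
  let f : Fin N ⊕ Fin (Q + 1) → Fin N ⊕ ℕ := Sum.map id Fin.val
  let g : Fin N ⊕ ℕ → Fin N ⊕ Fin (Q + 1) :=
    Sum.map id (fun m => ⟨min m Q, by omega⟩)
  refine ((List.finite_length_le (Fin N ⊕ Fin (Q + 1)) Q).image (List.map f)).subset ?_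
  rintro circ ⟨h1, h2, -⟩
  refine ⟨circ.map g, ?_, ?_⟩
  · change (circ.map g).length ≤ Q
    rw [List.length_map]
    exact h1
  · rw [List.map_map]
    conv_rhs => rw [← List.map_id circ]
    refine List.map_congr_left fun x hx => ?_
    rcases x with i | m
    · rfl
    · have h3 := h2 m hx
      change Sum.inr (min m Q) = Sum.inr m
      rw [min_eq_left h3]

theorem bw_blP (ω : X → List A) (z : Fin N × Fin K → X) (circ : List (Fin N ⊕ ℕ)) :
    bw ω z (blP c0 K circ) = cwS c0 (fun i => List.ofFn fun k => ω (z (i, k))) circ := by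
  induction circ with
  | nil => rfl
  | cons c circ ih =>
    have h1 : bw ω z (blP c0 K (c :: circ)) =
        bw ω z (Sum.elim (fun i => List.ofFn fun k : Fin K => Sum.inl (i, k))
          (fun m => [Sum.inr (List.replicate m c0)]) c) ++ bw ω z (blP c0 K circ) := by
      unfold bw blP
      rw [List.flatMap_cons, List.map_append, List.flatten_append]
    have h2 : cwS c0 (fun i => List.ofFn fun k => ω (z (i, k))) (c :: circ) =
        (Sum.elim (fun i => (List.ofFn fun k => ω (z (i, k))).flatten)
          (fun m => List.replicate m c0) c) ++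
          cwS c0 (fun i => List.ofFn fun k => ω (z (i, k))) circ := by
      unfold cwS
      rw [List.map_cons, List.flatten_cons]
    rw [h1, h2, ih]
    congr 1
    rcases c with i | m
    · change ((List.ofFn fun k : Fin K => (Sum.inl (i, k) : (Fin N × Fin K) ⊕ List A)).map
        (PS.val ω z)).flatten = (List.ofFn fun k => ω (z (i, k))).flatten
      rw [List.map_ofFn]
      rfl
    · change ([(Sum.inr (List.replicate m c0) : (Fin N × Fin K) ⊕ List A)].map
        (PS.val ω z)).flatten = List.replicate m c0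
      simp [PS.val]

theorem C6_pcs (circ : List (Fin N ⊕ ℕ)) : pcs (blP c0 K circ) =
    (circ.filterMap Sum.getLeft?).flatMap fun i => List.ofFn fun k : Fin K => (i, k) := by
  induction circ with
  | nil => rfl
  | cons c circ ih =>
    unfold pcs blP at *
    rw [List.flatMap_cons, List.filterMap_append, ih]
    rcases c with i | m
    · have e1 : List.filterMap Sum.getLeft? ((Sum.inl i : Fin N ⊕ ℕ) :: circ) =
          i :: List.filterMap Sum.getLeft? circ := rfl
      rw [e1, List.flatMap_cons]
      congr 1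
      change List.filterMap Sum.getLeft? (List.ofFn fun k : Fin K =>
        (Sum.inl (i, k) : (Fin N × Fin K) ⊕ List A)) = _
      rw [List.ofFn_eq_map, List.ofFn_eq_map, List.filterMap_map]
      induction (List.finRange K) with
      | nil => rfl
      | cons a l ih2 =>
        rw [List.map_cons, ← ih2]
        rfl
    · rfl

theorem C6_kap {Q : ℕ} {g : ℝ} (hg : 1 ≤ g) (circ : List (Fin N ⊕ ℕ))
    (h : ∀ m, Sum.inr m ∈ circ → m ≤ Q) :
    0 ≤ ((blP c0 K circ).map (kap g)).prod ∧
      ((blP c0 K circ).map (kap g)).prod ≤ (2 ^ K * g ^ Q) ^ circ.length := by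
  induction circ with
  | nil => simp [blP]
  | cons c circ ih =>
    have ih := ih fun m hm => h m (List.mem_cons_of_mem _ hm)
    have h1 : (blP c0 K (c :: circ)).map (kap g) =
        ((Sum.elim (fun i => List.ofFn fun k : Fin K => Sum.inl (i, k))
          (fun m => [Sum.inr (List.replicate m c0)]) c).map (kap g)) ++
          (blP c0 K circ).map (kap g) := by
      unfold blP
      rw [List.flatMap_cons, List.map_append]
    rw [h1, List.prod_append, List.length_cons, pow_succ']
    have hgQ : 1 ≤ g ^ Q := one_le_pow₀ hg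
    have h2K : (1 : ℝ) ≤ 2 ^ K := one_le_pow₀ (by norm_num)
    have h2 : 0 ≤ ((Sum.elim (fun i => List.ofFn fun k : Fin K => Sum.inl (i, k))
          (fun m => [Sum.inr (List.replicate m c0)]) c :
          List ((Fin N × Fin K) ⊕ List A)).map (kap g)).prod ∧
        ((Sum.elim (fun i => List.ofFn fun k : Fin K => Sum.inl (i, k))
          (fun m => [Sum.inr (List.replicate m c0)]) c :
          List ((Fin N × Fin K) ⊕ List A)).map (kap g)).prod ≤ 2 ^ K * g ^ Q := by
      rcases c with i | m
      · have h3 : ((List.ofFn fun k : Fin K => (Sum.inl (i, k) :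
            (Fin N × Fin K) ⊕ List A)).map (kap g)).prod = 2 ^ K := by
          rw [List.map_ofFn, List.prod_ofFn]
          change ∏ _i : Fin K, (2 : ℝ) = _
          rw [Finset.prod_const, Finset.card_univ, Fintype.card_fin]
        change 0 ≤ ((List.ofFn fun k : Fin K => (Sum.inl (i, k) :
            (Fin N × Fin K) ⊕ List A)).map (kap g)).prod ∧
            ((List.ofFn fun k : Fin K => (Sum.inl (i, k) :
            (Fin N × Fin K) ⊕ List A)).map (kap g)).prod ≤ _
        rw [h3]
        exact ⟨by positivity, by nlinarith⟩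
      · have h3 : ([(Sum.inr (List.replicate m c0) :
            (Fin N × Fin K) ⊕ List A)].map (kap g)).prod = g ^ m := by
          simp [kap]
        change 0 ≤ ([(Sum.inr (List.replicate m c0) :
            (Fin N × Fin K) ⊕ List A)].map (kap g)).prod ∧
            ([(Sum.inr (List.replicate m c0) :
            (Fin N × Fin K) ⊕ List A)].map (kap g)).prod ≤ _
        rw [h3]
        have h4 : g ^ m ≤ g ^ Q := pow_le_pow_right₀ hg (h m List.mem_cons_self)
        exact ⟨by positivity, by nlinarith⟩
    exact ⟨mul_nonneg h2.1 ih.1, mul_le_mul h2.2 ih.2 ih.1 (by positivity)⟩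

theorem pcs_blP {circ : List (Fin N ⊕ ℕ)} (h : IsPat Q circ) : (pcs (blP c0 K circ)).Nodup := by
  rw [C6_pcs, List.nodup_flatMap]
  refine ⟨fun i _ => ?_, ?_⟩
  · rw [List.nodup_ofFn]
    intro a b hab
    exact (Prod.mk.injEq _ _ _ _ ▸ hab).2
  · refine List.Pairwise.imp ?_ h.2.2
    intro i j hij x hx hy
    rw [List.mem_ofFn] at hx hy
    obtain ⟨a, rfl⟩ := hx
    obtain ⟨b, hb⟩ := hy
    exact hij (congrArg Prod.fst hb).symm

theorem blP_length {circ : List (Fin N ⊕ ℕ)} (h : IsPat Q circ) :
    (blP c0 K circ).length ≤ Q * (K + 1) := by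
  have h1 : ∀ circ : List (Fin N ⊕ ℕ), (blP c0 K circ).length ≤ circ.length * (K + 1) := by
    intro circ
    induction circ with
    | nil => simp [blP]
    | cons c circ ih =>
      unfold blP at *
      rw [List.flatMap_cons, List.length_append, List.length_cons, add_mul, one_mul, add_comm]
      refine add_le_add ih ?_
      rcases c with i | m
      · rw [Sum.elim_inl, List.length_ofFn]
        omega
      · rw [Sum.elim_inr, List.length_singleton]
        omega
  exact (h1 circ).trans (Nat.mul_le_mul_right _ h.1)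

theorem blP_kap {circ : List (Fin N ⊕ ℕ)} (h : IsPat Q circ) {g : ℝ} (hg : 1 ≤ g) :
    0 ≤ ((blP c0 K circ).map (kap g)).prod ∧
      ((blP c0 K circ).map (kap g)).prod ≤ (2 ^ K * g ^ Q) ^ Q := by
  obtain ⟨h1, h2⟩ := C6_kap (K := K) hg circ h.2.1
  refine ⟨h1, h2.trans (pow_le_pow_right₀ ?_ h.1)⟩
  have hgQ : 1 ≤ g ^ Q := one_le_pow₀ hg
  have h2K : (1 : ℝ) ≤ 2 ^ K := one_le_pow₀ (by norm_num)
  nlinarith

theorem blP_inr {circ : List (Fin N ⊕ ℕ)} (h : IsPat Q circ) (u : List A)
    (hu : Sum.inr u ∈ blP c0 K circ) : u.length ≤ Q := by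
  unfold blP at hu
  rw [List.mem_flatMap] at hu
  obtain ⟨c, hc, hu⟩ := hu
  rcases c with i | m
  · rw [Sum.elim_inl, List.mem_ofFn] at hu
    obtain ⟨a, ha⟩ := hu
    exact absurd ha Sum.inl_ne_inr
  · rw [Sum.elim_inr, List.mem_singleton] at hu
    rw [Sum.inr.inj hu, List.length_replicate]
    exact h.2.1 m hc

end Pool.Agent.PR
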