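import Pool.Agent.LibPR57.C7A
import Pool.Agent.LibPS62.S8

/-!
# [PO57 C8] The selection theorem
-/

set_option autoImplicit false

namespace Pool.Agent.PR

open Pool.Agent.PS

open Finset

variable {A : Type} [Fintype A]

/-- Row C8a: the sum over `T` by length. The terms are nonnegative; `mW p T l * ρ ^ l` is the sum of
`mu p w * ρ ^ |w|` over the words `w` of `T` of length `l` (the words `List.ofFn x`, `x : Fin l → A`,
each once), so the finite partial sums over `l` are bounded by the whole sum
(`summable_of_sum_range_le`), or `Summable.sigma` for `T ≃ Σ l, {w ∈ T | |w| = l}`. -/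
theorem summable_mW {p : A → ℝ} (hp : ∀ a, 0 ≤ p a) {ρ : ℝ} (hρ : 0 ≤ ρ) (T : Set (List A))
    (hT : Summable fun w : T => mu p w.1 * ρ ^ w.1.length) :
    Summable fun l : ℕ => mW p T l * ρ ^ l := by
  classical
  have h1 : Summable (T.indicator fun w : List A => mu p w * ρ ^ w.length) :=
    summable_subtype_iff_indicator.1 hT
  have h2 : Summable fun s : Σ n, (Fin n → A) =>
      (T.indicator fun w : List A => mu p w * ρ ^ w.length) (List.ofFn s.2) :=
    (List.equivSigmaTuple (α := A)).symm.summable_iff.2 h1
  have h3 := h2.sigma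
  refine h3.congr fun l => ?_
  rw [tsum_fintype]
  unfold mW
  rw [Finset.sum_mul]
  refine Finset.sum_congr rfl fun x _ => ?_
  by_cases hx : List.ofFn x ∈ T
  · rw [Set.indicator_of_mem hx, if_pos hx, List.length_ofFn]
  · rw [Set.indicator_of_notMem hx, if_neg hx, zero_mul]

end Pool.Agent.PR
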