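import Pool.Agent.LibPR57.Defs

/-!
# The selection theorem (probability half), from the rows of `LibPS62`
-/

set_option autoImplicit false

namespace Pool.Agent.PR

open Finset Pool.Agent.PO

variable {A : Type} [Fintype A]

/-- the probability half (sections 1 and 3 of the page) -/
theorem selection (c0 : A) (wA : A → ℕ) (p : A → ℝ) (hp : ∀ x, 0 < p x) (hp1 : ∑ a, p a = 1) (ρ : ℝ)
    (hρ : 1 < ρ) (T : Set (List A)) (hT : Summable fun w : T => PS.mu p w.1 * ρ ^ w.1.length) :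
    ∃ m0 : ℕ, ∀ (J N : ℕ) (C c t : ℝ), 0 < t → ∃ Kmax : ℕ, ∀ Q : ℕ, ∃ m1 : ℕ, m0 ≤ m1 ∧ ∀ n0 : ℕ, 0 < n0 →
      ∀ F : ℕ → List (List A) → ℝ,
        (∀ j < J, ∀ s s' : List (List A), (∀ B ∈ s, PcA T m0 n0 B) → (∀ B ∈ s', PcA T m0 n0 B) →
          s.length + s'.length ≤ 2 * Kmax → F j (s ++ s') ≤ F j s + F j s') →
        (∀ j < J, ∀ s : List (List A), (∀ B ∈ s, PcA T m0 n0 B) → s.length ≤ 2 * Kmax →
          -(c * s.length) ≤ F j s ∧ F j s ≤ C * s.length) →
        ∃ (K : ℕ) (e : ℕ → ℝ) (z : Fin N → List (List A)), 0 < K ∧ K ≤ Kmax ∧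
          (∀ i, (z i).length = K) ∧ (∀ i, ∀ B ∈ z i, PcA T m0 n0 B) ∧ (∀ i, Even (((z i).flatten.map wA).sum)) ∧
          (∀ i, ∀ j < J, F j (z i) ≤ K * (e j + t)) ∧
          (∀ i i', i ≠ i' → ∀ j < J, 2 * K * (e j - t) ≤ F j (z i ++ z i')) ∧
          (∀ circ : List (Fin N ⊕ ℕ), circ.length ≤ Q → (∀ m, Sum.inr m ∈ circ → m ≤ Q) →
            (circ.filterMap Sum.getLeft?).Nodup → (∃ i, Sum.inl i ∈ circ) →
            ∀ a, IsArcA (cwA c0 z circ) a → m1 < a.length → a ∉ T) := by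
  classical
  have hp0 : ∀ a, 0 ≤ p a := fun a => (hp a).le
  have hsum : ∑ a, p a = 1 := hp1
  set b : ℝ := √ρ with hb
  have hb1 : 1 < b := by
    rw [hb]
    exact Real.lt_sqrt_of_sq_lt (by simpa using hρ)
  have hb2 : b ^ 2 = ρ := by rw [hb]; exact Real.sq_sqrt (by linarith)
  have hs2 : Summable fun l : ℕ => PS.mW p T l * (b ^ 2) ^ l := by
    rw [hb2]
    exact summable_mW hp0 (by linarith) T hT
  have hs1 : Summable fun l : ℕ => PS.mW p T l * b ^ l := by
    refine Summable.of_nonneg_of_le (fun l => mul_nonneg (PS.mW_nonneg hp0 T l) (by positivity))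
      (fun l => ?_) hs2
    refine mul_le_mul_of_nonneg_left (pow_le_pow_left₀ (by linarith) ?_ l) (PS.mW_nonneg hp0 T l)
    nlinarith
  obtain ⟨m0, hm0⟩ := PS.exists_m0 hp0 hb1 hs1
  refine ⟨m0, fun J N C c t ht => ?_⟩
  obtain ⟨Kmax, hscale⟩ := PS.scale_lemma J N (abs_nonneg c) (abs_nonneg C) ht
  refine ⟨Kmax, fun Q => ?_⟩
  obtain ⟨m1, hm1, hcirc⟩ := circles_prob c0 hp hsum hb1 hs2 m0 N Kmax Q
  refine ⟨m1, hm1, fun n0 _ F hsub hbd => ?_⟩
  obtain ⟨X, _, q, ω, hpc, ε, hε⟩ := PS.Wd_pieces hp hsum hb1 hm0 wA n0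
  have hPc : ∀ x, PcA T m0 n0 (ω x) := fun x => ⟨hpc.len x, hpc.good x⟩
  have hPcm : ∀ s : List X, ∀ B ∈ s.map ω, PcA T m0 n0 B := by
    intro s B hB
    obtain ⟨x, -, rfl⟩ := List.mem_map.1 hB
    exact hPc x
  obtain ⟨K, hK0, hK, hKe, e, hgood⟩ := hscale X q hpc.pr (fun j s => F j (s.map ω))
    (fun j s s' h => by
      rw [List.map_append]
      exact hsub j j.2 _ _ (hPcm s) (hPcm s') (by simpa using h))
    (fun j s h => by
      have h1 := hbd j j.2 (s.map ω) (hPcm s) (by simpa using h)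
      rw [List.length_map] at h1
      have h2 : (0 : ℝ) ≤ s.length := Nat.cast_nonneg _
      constructor
      · nlinarith [le_abs_self c]
      · nlinarith [le_abs_self C])
  have hbad := hcirc n0 X q ω hpc K hK
  obtain ⟨z, hz⟩ := PS.exists_not_of_P1_lt (PS.isPr_pq (PS.isPr_pq hpc.pr))
    (E := fun z : Fin N → Fin K → X => (¬ PS.Good (fun j s => F j (s.map ω)) K t e z) ∨
      BadArc c0 T m1 Q fun i => List.ofFn fun k => ω (z i k))
    (lt_of_le_of_lt (PS.P1_or (PS.isPr_pq (PS.isPr_pq hpc.pr)) _ _)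
      (lt_of_le_of_lt (add_le_add hgood hbad) (by norm_num)))
  rw [not_or, not_not] at hz
  obtain ⟨⟨hz1, hz2⟩, hz3⟩ := hz
  have hmap : ∀ i, (List.ofFn (z i)).map ω = List.ofFn fun k => ω (z i k) := fun i => by
    rw [List.map_ofFn]
    rfl
  refine ⟨K, fun j => if h : j < J then e ⟨j, h⟩ else 0, fun i => List.ofFn fun k => ω (z i k),
    hK0, hK, fun i => List.length_ofFn, ?_, ?_, ?_, ?_, ?_⟩
  · intro i B hB
    obtain ⟨k, rfl⟩ := List.mem_ofFn.1 hB
    exact hPc _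
  · intro i
    have key : ∀ l : List X, (((l.map ω).flatten.map wA).sum) % 2 = (l.length * ε) % 2 := by
      intro l
      induction l with
      | nil => simp [wt]
      | cons x l ih =>
        have h1 : (((x :: l).map ω).flatten.map wA).sum = ((ω x).map wA).sum + ((l.map ω).flatten.map wA).sum := by
          simp [wt]
        have h2 : ((ω x).map wA).sum % 2 = ε := hε x
        rw [h1, Nat.add_mod, ih, h2, List.length_cons, Nat.add_mul, one_mul, Nat.add_comm,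
          Nat.add_mod]
        have h3 : ε % 2 = ε := by rw [← h2, Nat.mod_mod]
        simp [h3]
    show Even (((List.ofFn fun k => ω (z i k)).flatten.map wA).sum)
    rw [← hmap, Nat.even_iff, key, List.length_ofFn]
    exact Nat.even_iff.1 (hKe.mul_right ε)
  · intro i j hj
    have : F j ((List.ofFn (z i)).map ω) ≤ K * (e ⟨j, hj⟩ + t) := hz1 i ⟨j, hj⟩
    rw [hmap] at this
    show F j (List.ofFn fun k => ω (z i k)) ≤ K * ((if h : j < J then e ⟨j, h⟩ else 0) + t)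
    rw [dif_pos hj]
    exact this
  · intro i i' hii j hj
    have : 2 * (K : ℝ) * (e ⟨j, hj⟩ - t) ≤ F j ((List.ofFn (z i) ++ List.ofFn (z i')).map ω) :=
      hz2 i i' hii ⟨j, hj⟩
    rw [List.map_append, hmap, hmap] at this
    show 2 * (K : ℝ) * ((if h : j < J then e ⟨j, h⟩ else 0) - t) ≤
      F j ((List.ofFn fun k => ω (z i k)) ++ List.ofFn fun k => ω (z i' k))
    rw [dif_pos hj]
    exact this
  · intro circ h1 h2 h3 _ a ⟨s, hs⟩ ha haT
    exact hz3 ⟨circ, ⟨h1, h2, h3⟩, s, a, haT, ha, hs⟩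

end Pool.Agent.PR
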