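import Pool.Agent.LibPO57.Basic
import Pool.Agent.LibHF31.E3

/-! The Hankel matrix of the numbers `q_(W + W0 (i + j))`, `W`, `W0` even. -/

set_option autoImplicit false

namespace Pool.Agent.PR

open Finset Pool.Agent.PO

theorem hankelA (q : ℕ → ℚ) (hq : ∀ N, 2 ≤ N → Even N → (Pool.Agent.HF.zt [N] : ℝ) = (q N : ℝ) * Real.pi ^ N)
    (W : ℕ) (hW : 2 ≤ W) (he : Even W) (W0 : ℕ) (hW0 : W0 ≠ 0) (he0 : Even W0) (n : ℕ) :
    (Matrix.of fun i j : Fin n => q (W + W0 * (i.1 + j.1))).det ≠ 0 := by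
  intro hdet
  obtain ⟨c, hc0, hc⟩ := Matrix.exists_mulVec_eq_zero_iff.mpr hdet
  have hpi : (Real.pi : ℝ) ≠ 0 := Real.pi_ne_zero
  -- the real vector with signs
  set d : Fin n → ℝ := fun i => (c i : ℝ) with hd
  set y : ℕ → ℝ := fun k => 1 / ((k : ℝ) * Real.pi) with hy
  have hsum : ∀ m : ℕ, HasSum (fun k : ℕ => y k ^ (W + W0 * m)) (q (W + W0 * m) : ℝ) := by
    intro m
    have h2 : 2 ≤ W + W0 * m := hW.trans (Nat.le_add_right _ _)
    have h := (Pool.Agent.HF.zt_singleton (W + W0 * m) h2).div_const (Real.pi ^ (W + W0 * m))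
    rw [hq _ h2 (he.add (he0.mul_right m)), mul_div_assoc, div_self (pow_ne_zero _ hpi), mul_one] at h
    have e : (fun k : ℕ => y k ^ (W + W0 * m)) =
        fun k : ℕ => 1 / (k : ℝ) ^ (W + W0 * m) / Real.pi ^ (W + W0 * m) := by
      funext k
      show (1 / ((k : ℝ) * Real.pi)) ^ (W + W0 * m) = _
      rw [one_div_pow, mul_pow, div_div]
    rw [e]
    exact h
  have htot : HasSum (fun k : ℕ => ∑ i : Fin n, ∑ j : Fin n, d i * d j * y k ^ (W + W0 * (i.1 + j.1)))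
      (∑ i : Fin n, ∑ j : Fin n, d i * d j * (q (W + W0 * (i.1 + j.1)) : ℝ)) := by
    refine hasSum_sum fun i _ => hasSum_sum fun j _ => ?_
    exact (hsum (i.1 + j.1)).mul_left (d i * d j)
  have hzero : (∑ i : Fin n, ∑ j : Fin n, d i * d j * (q (W + W0 * (i.1 + j.1)) : ℝ)) = 0 := by
    apply Finset.sum_eq_zero
    intro i _
    have h1 := congrFun hc i
    rw [Matrix.mulVec, dotProduct, Pi.zero_apply] at h1
    have h2 : (∑ j : Fin n, (q (W + W0 * (i.1 + j.1)) : ℝ) * (c j : ℝ)) = 0 := by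
      have h3 := congrArg (fun t : ℚ => (t : ℝ)) h1
      simp only [Matrix.of_apply] at h3
      push_cast at h3
      exact h3
    have h4 : (∑ j : Fin n, d i * d j * (q (W + W0 * (i.1 + j.1)) : ℝ)) =
        (c i : ℝ) * ∑ j : Fin n, (q (W + W0 * (i.1 + j.1)) : ℝ) * (c j : ℝ) := by
      rw [Finset.mul_sum]
      refine Finset.sum_congr rfl fun j _ => ?_
      show (c i : ℝ) * (c j : ℝ) * _ = _
      ring
    rw [h4, h2, mul_zero]
  rw [hzero] at htot
  have hterm : ∀ k : ℕ, (∑ i : Fin n, ∑ j : Fin n, d i * d j * y k ^ (W + W0 * (i.1 + j.1))) =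
      y k ^ W * (∑ i : Fin n, d i * (y k ^ W0) ^ i.1) ^ 2 := by
    intro k
    rw [pow_two (∑ i : Fin n, d i * (y k ^ W0) ^ i.1), Finset.sum_mul_sum, Finset.mul_sum]
    refine Finset.sum_congr rfl fun i _ => ?_
    rw [Finset.mul_sum]
    refine Finset.sum_congr rfl fun j _ => ?_
    rw [pow_add, pow_mul, pow_add]
    ring
  have hynn : ∀ k : ℕ, 0 ≤ y k := by
    intro k
    show 0 ≤ 1 / ((k : ℝ) * Real.pi)
    positivity
  have hall := (hasSum_zero_iff_of_nonneg (f := fun k : ℕ => ∑ i : Fin n, ∑ j : Fin n,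
    d i * d j * y k ^ (W + W0 * (i.1 + j.1))) (by
      intro k
      show (0 : ℝ) ≤ ∑ i : Fin n, ∑ j : Fin n, d i * d j * y k ^ (W + W0 * (i.1 + j.1))
      rw [hterm k]
      exact mul_nonneg (pow_nonneg (hynn k) _) (sq_nonneg _))).mp htot
  have hval : ∀ k : ℕ, (∑ i : Fin n, d i * (y (k + 1) ^ W0) ^ i.1) = 0 := by
    intro k
    have h1 : (∑ i : Fin n, ∑ j : Fin n, d i * d j * y (k + 1) ^ (W + W0 * (i.1 + j.1))) = 0 :=
      congrFun hall (k + 1)
    rw [hterm (k + 1)] at h1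
    have hpos : 0 < y (k + 1) := by
      show 0 < 1 / (((k + 1 : ℕ) : ℝ) * Real.pi)
      have := Real.pi_pos
      positivity
    rcases mul_eq_zero.mp h1 with h2 | h2
    · exact absurd h2 (pow_ne_zero _ hpos.ne')
    · exact pow_eq_zero_iff (two_ne_zero) |>.mp h2
  have hinj : Function.Injective (fun i : Fin n => y (i.1 + 1) ^ W0) := by
    intro i j hij
    have h1 : y (i.1 + 1) = y (j.1 + 1) :=
      (pow_left_inj₀ (hynn _) (hynn _) hW0).mp hij
    have h2 : (((i.1 + 1 : ℕ) : ℝ) * Real.pi) = (((j.1 + 1 : ℕ) : ℝ) * Real.pi) := by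
      have h3 : 1 / (((i.1 + 1 : ℕ) : ℝ) * Real.pi) = 1 / (((j.1 + 1 : ℕ) : ℝ) * Real.pi) := h1
      rw [one_div, one_div] at h3
      exact inv_injective h3
    have h4 : ((i.1 + 1 : ℕ) : ℝ) = ((j.1 + 1 : ℕ) : ℝ) := mul_right_cancel₀ hpi h2
    have h5 : i.1 + 1 = j.1 + 1 := by exact_mod_cast h4
    exact Fin.ext (by omega)
  have hd0 : d = 0 := by
    apply Matrix.eq_zero_of_mulVec_eq_zero (M := Matrix.vandermonde fun i : Fin n => y (i.1 + 1) ^ W0)
    · exact Matrix.det_vandermonde_ne_zero_iff.mpr hinj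
    · funext i
      rw [Matrix.mulVec, dotProduct, Pi.zero_apply, ← hval i.1]
      refine Finset.sum_congr rfl fun j _ => ?_
      rw [Matrix.vandermonde_apply]
      ring
  apply hc0
  funext i
  have h1 : (c i : ℝ) = 0 := congrFun hd0 i
  show c i = 0
  exact_mod_cast h1

end Pool.Agent.PR
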