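import Pool.Agent.LibPO57.Defs
import Pool.Agent.LibPR57.C8A

/-!
Definitions for block families (PoleOrders v3; page `notes_MP_c2d7b4_helper57_REG.md`, Theorem R).

`A` is a finite type of blocks, `u : A → List Bool` the words of the blocks.
-/

set_option autoImplicit false

namespace Pool.Agent.PR

open Finset Pool.Agent.PO

variable {A : Type}

/-- The word of a list of blocks. -/
def fl (u : A → List Bool) (s : List A) : List Bool := (s.map u).flatten

/-- The set of the lists of blocks `s` such that some word of `T` starts in the first block of `s` and consists of the rest of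
this block, all other blocks of `s` and a proper prefix of a further block (or nothing). -/
def Hat (u : A → List Bool) (T : Set (List Bool)) : Set (List A) :=
  {s | ∃ w ∈ T, ∃ x q : List Bool, x ++ w = fl u s ++ q ∧ (∃ a t, s = a :: t ∧ x.length < (u a).length) ∧
    (q = [] ∨ ∃ b, q <+: u b ∧ q ≠ u b)}

/-- A piece: a list of `n` blocks without factor in `S` of length `> m`. -/
def PcA (S : Set (List A)) (m n : ℕ) (B : List A) : Prop :=
  B.length = n ∧ ∀ a, a <:+: B → m < a.length → a ∉ S

/-- `a` is an arc of the circle `w`. -/
def IsArcA (w a : List A) : Prop := ∃ i, a <+: w.rotate i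

/-- The circle of a list of symbols: `Sum.inl i` stands for `(z i).flatten`, `Sum.inr m` for `c0 ^ m`. -/
def cwA (c0 : A) {ι : Type*} (z : ι → List (List A)) (circ : List (ι ⊕ ℕ)) : List A :=
  (circ.map (Sum.elim (fun i => (z i).flatten) (fun m => List.replicate m c0))).flatten

end Pool.Agent.PR
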