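import Pool.Agent.LibPR57.CasesA
import Pool.Agent.LibPO57.Final

/-!
The main theorem for block families, Bernoulli form.
-/

set_option autoImplicit false

namespace Pool.Agent.PR

open Finset Pool.Agent.PO

variable {A : Type}

theorem even_wt_cwl {N : ℕ} (Y : Fin N → List Bool) (hY : ∀ i, Even (wt (Y i))) (c1 : List Bool)
    (circ : List (Fin N ⊕ ℕ)) (hc : ∀ m, Sum.inr m ∈ circ → Even m) : Even (wt (cwl Y c1 circ)) := by
  induction circ with
  | nil => simp
  | cons a circ ih =>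
    have h1 := ih fun m hm => hc m (List.mem_cons_of_mem _ hm)
    cases a with
    | inl i => rw [cwl_inl, wt_append]; exact (hY i).add h1
    | inr m =>
      rw [cwl_inr, wt_append, wt_flatten_replicate]
      exact ((hc m (by simp)).mul_right _).add h1

theorem length_cwl {N : ℕ} (Y : Fin N → List Bool) (c1 : List Bool) (D Q : ℕ) (hY : ∀ i, (Y i).length ≤ D)
    (circ : List (Fin N ⊕ ℕ)) (hc : ∀ m, Sum.inr m ∈ circ → m ≤ Q) :
    (cwl Y c1 circ).length ≤ circ.length * (D + Q * c1.length) := by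
  induction circ with
  | nil => simp
  | cons a circ ih =>
    have h1 := ih fun m hm => hc m (List.mem_cons_of_mem _ hm)
    rw [List.length_cons, add_mul, one_mul]
    cases a with
    | inl i =>
      rw [cwl_inl, List.length_append]
      have := hY i
      omega
    | inr m =>
      rw [cwl_inr, List.length_append, length_flatten_replicate]
      have h2 := Nat.mul_le_mul_right c1.length (hc m (by simp))
      omega

/-- The main theorem in Bernoulli form. -/
theorem main_bernoulliA {v : AbsoluteValue ℂ ℝ} (hv : Ult v) (c : Bool → ℝ) (hc : ∀ x, 0 < c x)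
    (hcπ : ∀ x, c x < v (Real.pi : ℂ) ^ ltr x) [Fintype A] (c0 : A) {u : A → List Bool} {l : ℕ} (hl : 0 < l)
    (hu : ∀ a, (u a).length = l) (p : A → ℝ) (hp : ∀ x, 0 < p x) (hp1 : ∑ a, p a = 1) (ρ : ℝ) (hρ : 1 < ρ) :
    ¬ Summable fun s : Hat u {w : List Bool | gw c w < v (ze w : ℂ)} => PS.mu p s.1 * ρ ^ s.1.length := by
  intro hsum
  set T : Set (List Bool) := {w : List Bool | gw c w < v (ze w : ℂ)} with hTdef
  obtain ⟨q, hq'⟩ := exists_q
  have hq := fun N h2 he => (hq' N h2 he).1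
  have hπ0 : 0 < v (Real.pi : ℂ) := v.pos (by exact_mod_cast Real.pi_ne_zero)
  have hπx : ∀ x, 0 < v (Real.pi : ℂ) ^ ltr x := fun x => pow_pos hπ0 _
  -- θ and θm
  obtain ⟨θ, hθ0, hθ1, hθ⟩ : ∃ θ : ℝ, 0 < θ ∧ θ < 1 ∧ ∀ x, c x ≤ θ * v (Real.pi : ℂ) ^ ltr x := by
    refine ⟨max (c false / v (Real.pi : ℂ) ^ ltr false) (c true / v (Real.pi : ℂ) ^ ltr true), ?_, ?_, ?_⟩
    · exact lt_max_of_lt_left (div_pos (hc _) (hπx _))
    · exact max_lt ((div_lt_one (hπx _)).2 (hcπ _)) ((div_lt_one (hπx _)).2 (hcπ _))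
    · intro x
      rw [← div_le_iff₀ (hπx x)]
      cases x
      · exact le_max_left _ _
      · exact le_max_right _ _
  obtain ⟨θm, hθm0, hθm1, hθm⟩ : ∃ θm : ℝ, 0 < θm ∧ θm < 1 ∧ ∀ x, θm * v (Real.pi : ℂ) ^ ltr x ≤ c x := by
    refine ⟨min (c false / v (Real.pi : ℂ) ^ ltr false) (c true / v (Real.pi : ℂ) ^ ltr true), ?_, ?_, ?_⟩
    · exact lt_min (div_pos (hc _) (hπx _)) (div_pos (hc _) (hπx _))
    · exact min_lt_of_left_lt ((div_lt_one (hπx _)).2 (hcπ _))
    · intro x
      rw [← le_div_iff₀ (hπx x)]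
      cases x
      · exact min_le_left _ _
      · exact min_le_right _ _
  obtain ⟨m0, hm0⟩ := selL c0 hl hu p hp hp1 ρ hρ T hsum
  obtain ⟨b0, hb01, -, hb0⟩ := exists_b v hπ0.ne' c hc 1 m0
  have hnotT : ∀ w, w ∉ T → v (ze w : ℂ) ≤ gw c w := fun w hw => not_lt.1 hw
  -- the constants
  set h : ℝ := -Real.log θ / 2 with hh
  have hh0 : 0 < h := by
    have := Real.log_neg hθ0 hθ1
    rw [hh]; linarith
  have hlogθ : Real.log θ = -2 * h := by rw [hh]; ring
  set C : ℝ := 1 + Real.log b0 with hC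
  have hlb0 : 0 ≤ Real.log b0 := Real.log_nonneg hb01
  obtain ⟨J, hJ4, hJC⟩ : ∃ J : ℕ, 4 ≤ J ∧ C + 1 + 2 * h ≤ h * J / 2 := by
    obtain ⟨J, hJ⟩ := exists_nat_ge ((C + 1 + 2 * h) * 2 / h)
    refine ⟨J + 4, by omega, ?_⟩
    rw [div_le_iff₀ hh0] at hJ
    push_cast
    nlinarith
  have hJ1 : (1 : ℝ) ≤ J := by exact_mod_cast (by omega : 1 ≤ J)
  have hJpos : (0 : ℝ) < J := by linarith
  have h3J : (1 : ℝ) ≤ 3 ^ J := one_le_pow₀ (by norm_num)
  set t : ℝ := min 1 (h / (100 * J * 3 ^ J)) with ht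
  have hden : (0 : ℝ) < 100 * J * 3 ^ J := by positivity
  have ht0 : 0 < t := lt_min one_pos (div_pos hh0 hden)
  have ht1 : t ≤ 1 := min_le_left _ _
  have ht2 : 100 * J * 3 ^ J * t ≤ h := by
    have h1 : t ≤ h / (100 * J * 3 ^ J) := min_le_right _ _
    rw [le_div_iff₀ hden] at h1
    linarith
  have ht3 : 100 * t ≤ h := by
    refine le_trans ?_ ht2
    have h1 : (1 : ℝ) ≤ J * 3 ^ J := by nlinarith
    nlinarith
  obtain ⟨N, hN2, hN⟩ := exists_N hv J
  set cl : ℝ := J * (-Real.log θm) with hcl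
  obtain ⟨Kmax, hK⟩ := hm0 J N C cl t ht0
  set Q : ℕ := 2 * J + 2 * J ^ 2 + 4 with hQ
  obtain ⟨m1, hm01, hm1⟩ := hK Q
  obtain ⟨b1, hb11, hb01', hb1⟩ := exists_b v hπ0.ne' c hc b0 m1
  -- the length of the pieces
  obtain ⟨n0, hn01, hn0l, hn0a, hn0b⟩ : ∃ n0 : ℕ, 1 ≤ n0 ∧ l ∣ n0 ∧ m1 * Real.log b1 ≤ n0 ∧
      2 * (2 * J ^ 2 * l) * Real.log b1 < n0 * (h / 2 - 5 * t) := by
    have hpos : 0 < h / 2 - 5 * t := by linarith
    have hl1 : (1 : ℝ) ≤ l := by exact_mod_cast hl
    obtain ⟨n1, hn1⟩ := exists_nat_ge (m1 * Real.log b1)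
    obtain ⟨n2, hn2⟩ := exists_nat_gt (2 * (2 * J ^ 2 * l) * Real.log b1 / (h / 2 - 5 * t))
    rw [div_lt_iff₀ hpos] at hn2
    have h0 : (0 : ℝ) ≤ 1 + n1 + n2 := by positivity
    have h1 : (1 + (n1 : ℝ) + n2) ≤ l * (1 + n1 + n2) := by nlinarith
    have hn1' : (0 : ℝ) ≤ n1 := Nat.cast_nonneg _
    have hn2' : (0 : ℝ) ≤ n2 := Nat.cast_nonneg _
    refine ⟨l * (1 + n1 + n2), Nat.mul_pos hl (by omega), dvd_mul_right _ _, ?_, ?_⟩
    · push_cast; linarith
    · push_cast
      have h2 : (n2 : ℝ) * (h / 2 - 5 * t) ≤ (l * (1 + n1 + n2)) * (h / 2 - 5 * t) :=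
        mul_le_mul_of_nonneg_right (by linarith) hpos.le
      linarith
  have hn0pos : (0 : ℝ) < n0 := by exact_mod_cast hn01
  set L : ℕ := 2 * (Q * (Kmax * n0 + Q * l)) + 2 * Kmax * n0 + J + 1 with hL
  haveI : Nonempty (IL L) := ⟨⟨[], by simp [hL]⟩⟩
  have hg : ∀ u : IL L, 0 < gI c u := fun u => gw_pos hc u.1
  set z : List Bool → ℂ := zc T m1 with hz
  -- bounds for one piece
  have hpiece : ∀ (j : ℕ) (B : List Bool), Pc T m0 n0 B →
      Mn v (gI c) (j + 1) (Am L z B) ≤ Real.exp (n0 * (C - 2 * h * j)) := by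
    intro j B hB
    refine (Mn_Am_piece hv hc hθ0.le hθ1.le hθ hnotT hm01 hb01 hb01' hb0 hb1 B hB.2 j).trans ?_
    rw [hB.1]
    have hb1pos : 0 < b1 := by linarith
    have hb0pos : 0 < b0 := by linarith
    have e1 : b1 ^ m1 = Real.exp (m1 * Real.log b1) := by
      rw [mul_comm, ← Real.rpow_def_of_pos hb1pos, Real.rpow_natCast]
    have e2 : (b0 * θ ^ j) ^ n0 = Real.exp (n0 * (Real.log b0 - 2 * h * j)) := by
      have e3 : b0 * θ ^ j = Real.exp (Real.log b0 - 2 * h * j) := by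
        rw [sub_eq_add_neg, Real.exp_add, Real.exp_log hb0pos]
        congr 1
        rw [← Real.exp_log hθ0, ← Real.exp_nat_mul, hlogθ]
        congr 1
        ring
      rw [e3, ← Real.exp_nat_mul]
    rw [e1, e2, ← Real.exp_add]
    refine Real.exp_le_exp.2 ?_
    rw [hC]
    nlinarith
  -- bounds for lists of pieces
  have hup : ∀ (j : ℕ) (s : List (List Bool)), (∀ B ∈ s, Pc T m0 n0 B) →
      Mn v (gI c) (j + 1) (Am L z s.flatten) ≤ Real.exp (n0 * s.length * (C - 2 * h * j)) := by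
    intro j s hs
    refine (Mn_Am_pieces hv hc z (j + 1) _ (Real.exp_pos _).le s fun B hB => hpiece j B (hs B hB)).trans ?_
    rw [← Real.exp_nat_mul]
    refine Real.exp_le_exp.2 (le_of_eq ?_)
    ring
  have hlen : ∀ s : List (List Bool), (∀ B ∈ s, Pc T m0 n0 B) → s.flatten.length = s.length * n0 :=
    fun s hs => length_flatten_of s fun B hB => (hs B hB).1
  have hlow : ∀ j ≤ J, ∀ s : List (List Bool), (∀ B ∈ s, Pc T m0 n0 B) → s.length ≤ 2 * Kmax →
      Real.exp (j * (n0 * s.length * Real.log θm)) ≤ Mn v (gI c) j (Am L z s.flatten) := by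
    intro j hj s hs hsl
    refine le_trans (le_of_eq ?_) (le_Mn_Am hv hc hθm0.le hθm z s.flatten j ?_)
    · rw [hlen s hs, ← Real.exp_log hθm0, ← Real.exp_nat_mul, ← Real.exp_nat_mul]
      push_cast
      rw [Real.exp_log hθm0]
      congr 1
      ring
    · rw [hlen s hs, hL]
      have h1 : s.length * n0 ≤ 2 * Kmax * n0 := Nat.mul_le_mul_right _ hsl
      omega
  have hpos : ∀ j ≤ J, ∀ s : List (List Bool), (∀ B ∈ s, Pc T m0 n0 B) → s.length ≤ 2 * Kmax →
      0 < Mn v (gI c) j (Am L z s.flatten) :=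
    fun j hj s hs hsl => lt_of_lt_of_le (Real.exp_pos _) (hlow j hj s hs hsl)
  -- the functions F
  set F : ℕ → List (List Bool) → ℝ := fun j s =>
    Real.log (Mn v (gI c) (j + 1) (Am L z s.flatten)) / n0 with hF
  have hFup : ∀ j < J, ∀ s : List (List Bool), (∀ B ∈ s, Pc T m0 n0 B) → s.length ≤ 2 * Kmax →
      F j s ≤ s.length * (C - 2 * h * j) := by
    intro j hj s hs hsl
    rw [hF]
    dsimp only
    rw [div_le_iff₀ hn0pos]
    have h1 := Real.log_le_log (hpos (j + 1) hj s hs hsl) (hup j s hs)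
    rw [Real.log_exp] at h1
    linarith
  have hlogθm : Real.log θm < 0 := Real.log_neg hθm0 hθm1
  have hFsub : ∀ j < J, ∀ s s' : List (List Bool), (∀ B ∈ s, Pc T m0 n0 B) → (∀ B ∈ s', Pc T m0 n0 B) →
      s.length + s'.length ≤ 2 * Kmax → F j (s ++ s') ≤ F j s + F j s' := by
    intro j hj s s' hs hs' hl
    rw [hF]
    dsimp only
    rw [← add_div]
    refine div_le_div_of_nonneg_right ?_ hn0pos.le
    have h1 := hpos (j + 1) hj s hs (by omega)
    have h2 := hpos (j + 1) hj s' hs' (by omega)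
    rw [← Real.log_mul h1.ne' h2.ne', List.flatten_append, Am_append]
    refine Real.log_le_log ?_ (Mn_mul_le hv hg _ _ _)
    have h3 := hpos (j + 1) hj (s ++ s') (fun B hB => by
      rcases List.mem_append.1 hB with hB | hB
      · exact hs B hB
      · exact hs' B hB) (by rw [List.length_append]; exact hl)
    rwa [List.flatten_append, Am_append] at h3
  have hFbd : ∀ j < J, ∀ s : List (List Bool), (∀ B ∈ s, Pc T m0 n0 B) → s.length ≤ 2 * Kmax →
      -(cl * s.length) ≤ F j s ∧ F j s ≤ C * s.length := by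
    intro j hj s hs hl
    constructor
    · rw [hF]
      dsimp only
      rw [le_div_iff₀ hn0pos]
      have h1 := Real.log_le_log (Real.exp_pos _) (hlow (j + 1) hj s hs hl)
      rw [Real.log_exp] at h1
      refine le_trans ?_ h1
      rw [hcl]
      push_cast
      have h2 : (j : ℝ) + 1 ≤ J := by exact_mod_cast hj
      have h3 : 0 ≤ (n0 : ℝ) * s.length * (-Real.log θm) := by
        have : 0 ≤ -Real.log θm := by linarith
        positivity
      nlinarith
    · refine (hFup j hj s hs hl).trans ?_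
      rw [mul_comm C]
      refine mul_le_mul_of_nonneg_left ?_ (Nat.cast_nonneg _)
      have : 0 ≤ 2 * h * (j : ℝ) := by positivity
      linarith
  obtain ⟨K, e, Zs, hK0, hKm, hZl, hZP, hZe, hZu, hZlo, hZc⟩ := hm1 n0 hn01 hn0l F hFsub hFbd
  -- the situation
  set n : ℝ := n0 * K with hn
  have hKpos : (0 : ℝ) < K := by exact_mod_cast hK0
  have hnpos : 0 < n := mul_pos hn0pos hKpos
  set e' : ℕ → ℝ := fun j => if j = 0 then 0 else e (j - 1) with he'
  have he'0 : e' 0 = 0 := by simp [he']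
  have he's : ∀ j, e' (j + 1) = e j := fun j => by simp [he']
  have hZ2 : ∀ i, (Zs i).length ≤ 2 * Kmax := fun i => by rw [hZl i]; omega
  have hZlen : ∀ i, (Zs i).flatten.length = K * n0 := fun i => by rw [hlen _ (hZP i), hZl i]
  have hZle : ∀ i, (Zs i).flatten.length ≤ Kmax * n0 := fun i => by
    rw [hZlen i]; exact Nat.mul_le_mul_right _ hKm
  have hZne : ∀ i, (Zs i).flatten ≠ [] := by
    intro i hi
    have h1 := hZlen i
    rw [hi, List.length_nil] at h1
    have : 0 < K * n0 := Nat.mul_pos hK0 hn01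
    omega
  have hS : Sit v c q L J N z n e' t (fun i => (Zs i).flatten) (u c0) Q := by
    refine ⟨he'0, hZe, hZne, fun i i' => by rw [hZlen, hZlen], ?_, ?_, ?_⟩
    · intro i j hj
      cases j with
      | zero =>
        rw [Mn_zero, he'0, zero_add]
        exact Real.one_le_exp (by positivity)
      | succ j =>
        have h1 := hZu i j hj
        rw [hF] at h1
        dsimp only at h1
        rw [div_le_iff₀ hn0pos] at h1
        rw [he's, ← Real.log_le_iff_le_exp (hpos (j + 1) hj _ (hZP i) (hZ2 i))]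
        rw [hn]
        linarith
    · intro i i' hi j hj
      cases j with
      | zero =>
        rw [Mn_zero, he'0]
        refine Real.exp_le_one_iff.2 ?_
        nlinarith
      | succ j =>
        have h1 := hZlo i i' hi j hj
        rw [hF] at h1
        dsimp only at h1
        rw [le_div_iff₀ hn0pos, List.flatten_append, Am_append] at h1
        have h3 := hpos (j + 1) hj (Zs i ++ Zs i') (fun B hB => by
          rcases List.mem_append.1 hB with hB | hB
          · exact hZP i B hB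
          · exact hZP i' B hB) (by rw [List.length_append, hZl, hZl]; omega)
        rw [List.flatten_append, Am_append] at h3
        rw [he's, ← Real.le_log_iff_exp_le h3, hn]
        linarith
    · intro circ hcl hcm hcd hcn
      refine trace_even hq L T m1 _ ?_ ?_ (even_wt_cwl _ hZe (u c0) circ fun m hm => (hcm m hm).2)
        (hZc circ hcl (fun m hm => (hcm m hm).1) hcd hcn)
      · obtain ⟨i, hi⟩ := hcn
        intro h0
        unfold cwl at h0
        rw [List.flatten_eq_nil_iff] at h0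
        exact hZne i (h0 _ (List.mem_map.2 ⟨_, hi, rfl⟩))
      · have h1 := length_cwl (fun i => (Zs i).flatten) (u c0) (Kmax * n0) Q hZle circ fun m hm => (hcm m hm).1
        rw [hu] at h1
        have h2 : circ.length * (Kmax * n0 + Q * l) ≤ Q * (Kmax * n0 + Q * l) := Nat.mul_le_mul_right _ hcl
        omega
  -- the bound for e_J
  have heJ : e' J ≤ -(3 * h / 2) * J := by
    obtain ⟨j, rfl⟩ : ∃ j, J = j + 1 := ⟨J - 1, by omega⟩
    rw [he's]
    have h1 := hZlo ⟨0, by omega⟩ ⟨1, by omega⟩ (by simp) j (by omega)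
    have h2 := hFup j (by omega) (Zs ⟨0, by omega⟩ ++ Zs ⟨1, by omega⟩) (fun B hB => by
          rcases List.mem_append.1 hB with hB | hB
          · exact hZP _ B hB
          · exact hZP _ B hB) (by rw [List.length_append, hZl, hZl]; omega)
    have h3 := h1.trans h2
    rw [List.length_append, hZl, hZl] at h3
    push_cast at h3 hJC ⊢
    have h4 : e j - t ≤ C - 2 * h * j := by
      have h5 : (K : ℝ) * (2 * (e j - t)) ≤ K * (2 * (C - 2 * h * j)) := by linarith
      have h6 := le_of_mul_le_mul_left h5 hKpos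
      linarith
    nlinarith
  by_cases hcase : e' 1 ≤ h
  · refine hS.low hv hc hq (by intro h0; have h1 := hu c0; rw [h0, List.length_nil] at h1; omega) hN2 (by omega)
      (by rw [hQ]; omega) h b1 hnpos ht0 hcase heJ (by linarith) hb11
      (fun w => Mn_Am_one hv hc hθ0.le hθ1.le hθ hnotT hb11 hb1 w) ?_
    have hb1pos : 0 < b1 := by linarith
    have e1 : (b1 ^ (2 * J ^ 2 * (u c0).length)) ^ 2 = Real.exp (2 * (2 * J ^ 2 * l) * Real.log b1) := by
      rw [hu, ← pow_mul, ← Real.rpow_natCast, Real.rpow_def_of_pos hb1pos]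
      congr 1
      push_cast
      ring
    rw [e1, ← Real.exp_add, Real.exp_lt_one_iff]
    have h1 : (n0 : ℝ) * (h / 2 - 5 * t) ≤ n * (h / 2 - 5 * t) := by
      refine mul_le_mul_of_nonneg_right ?_ (by linarith)
      rw [hn]
      have : (1 : ℝ) ≤ K := by exact_mod_cast hK0
      nlinarith
    linarith
  · push Not at hcase
    refine hS.high hv hc (by omega) (by rw [hQ]; omega) h hnpos ht0 hh0 hcase (heJ.trans ?_) ht2 hN
    have : 0 ≤ 3 * h / 2 * (J : ℝ) := by positivity
    linarith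

end Pool.Agent.PR
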