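import Pool.Agent.LibPR57.Defs
import Pool.Agent.LibPO57.Basic

/-!
The set `Hat u T` : lines, circles, summability (blocks of equal length `l`).
-/

set_option autoImplicit false

namespace Pool.Agent.PR

open Finset Pool.Agent.PO

variable {A : Type}

@[simp] theorem fl_nil (u : A → List Bool) : fl u [] = [] := rfl

@[simp] theorem fl_cons (u : A → List Bool) (a : A) (s : List A) : fl u (a :: s) = u a ++ fl u s := rfl

@[simp] theorem fl_append (u : A → List Bool) (s s' : List A) : fl u (s ++ s') = fl u s ++ fl u s' := by
  simp [fl]

theorem length_fl {u : A → List Bool} {l : ℕ} (hu : ∀ a, (u a).length = l) (s : List A) :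
    (fl u s).length = s.length * l := by
  induction s with
  | nil => simp
  | cons a s ih => rw [fl_cons, List.length_append, hu, ih, List.length_cons, add_mul, one_mul, add_comm]

theorem wt_fl (u : A → List Bool) (s : List A) : wt (fl u s) = (s.map fun a => wt (u a)).sum := by
  induction s with
  | nil => simp
  | cons a s ih => rw [fl_cons, wt_append, ih, List.map_cons, List.sum_cons]

/-- The common lemma. -/
theorem hat_of_prefix {u : A → List Bool} {l : ℕ} (hl : 0 < l) (hu : ∀ a, (u a).length = l) {T : Set (List Bool)}
    {D : List A} {x w : List Bool} (h : x ++ w <+: fl u D) (hx : x.length < l) (hw : w ∈ T)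
    (hlen : l ≤ x.length + w.length) : D.take ((x.length + w.length) / l) ∈ Hat u T := by
  set e : ℕ := (x.length + w.length) / l with he
  have he1 : 1 ≤ e := (Nat.one_le_div_iff hl).2 hlen
  have hle : e * l ≤ x.length + w.length := Nat.div_mul_le_self _ _
  have hlt : x.length + w.length < (e + 1) * l := by
    have := Nat.lt_mul_div_succ (x.length + w.length) hl
    rwa [mul_comm] at this
  have hD : e ≤ D.length := by
    have h1 := h.length_le
    rw [List.length_append, length_fl hu] at h1
    exact Nat.le_of_mul_le_mul_right (hle.trans h1) hl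
  have hsplit : fl u D = fl u (D.take e) ++ fl u (D.drop e) := by
    rw [← fl_append, List.take_append_drop]
  have hlt' : (fl u (D.take e)).length = e * l := by
    rw [length_fl hu, List.length_take, min_eq_left hD]
  obtain ⟨q, hq⟩ : fl u (D.take e) <+: x ++ w := by
    refine List.prefix_of_prefix_length_le ?_ h ?_
    · rw [hsplit]; exact List.prefix_append _ _
    · rw [hlt', List.length_append]; exact hle
  have hq' : q <+: fl u (D.drop e) := by
    rw [← hq, hsplit] at h
    exact (List.prefix_append_right_inj _).1 h
  have hql : q.length < l := by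
    have h1 := congrArg List.length hq
    rw [List.length_append, List.length_append, hlt'] at h1
    rw [add_mul, one_mul] at hlt
    omega
  refine ⟨w, hw, x, q, hq.symm, ?_, ?_⟩
  · cases hDe : D.take e with
    | nil =>
      have h1 := congrArg List.length hDe
      rw [List.length_take, min_eq_left hD, List.length_nil] at h1
      omega
    | cons a t => exact ⟨a, t, rfl, by rw [hu]; exact hx⟩
  · cases hDe : D.drop e with
    | nil =>
      rw [hDe, fl_nil] at hq'
      exact Or.inl (List.prefix_nil.1 hq')
    | cons b t =>
      right
      rw [hDe, fl_cons] at hq'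
      refine ⟨b, ?_, ?_⟩
      · refine List.prefix_of_prefix_length_le hq' (List.prefix_append _ _) ?_
        rw [hu]; exact hql.le
      · intro h0
        rw [h0, hu] at hql
        exact lt_irrefl _ hql

/-- No long factor on a line. -/
theorem line {u : A → List Bool} {l : ℕ} (hl : 0 < l) (hu : ∀ a, (u a).length = l) {T : Set (List Bool)}
    {s : List A} {m : ℕ} (hs : ∀ a, a <:+: s → m < a.length → a ∉ Hat u T) (w : List Bool) (hw : w <:+: fl u s)
    (hm : (m + 1) * l < w.length) : w ∉ T := by
  intro hT
  obtain ⟨X, Y, hXY⟩ := hw
  set i : ℕ := X.length / l with hi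
  have hile : i * l ≤ X.length := Nat.div_mul_le_self _ _
  have hilt : X.length < (i + 1) * l := by
    have := Nat.lt_mul_div_succ X.length hl
    rwa [mul_comm] at this
  have hlen := congrArg List.length hXY
  rw [List.length_append, List.length_append, length_fl hu] at hlen
  have his : i ≤ s.length := by
    refine Nat.le_of_mul_le_mul_right ?_ hl
    omega
  have hsplit : fl u s = fl u (s.take i) ++ fl u (s.drop i) := by
    rw [← fl_append, List.take_append_drop]
  have hdrop : fl u (s.drop i) = (fl u s).drop (i * l) := by
    have h1 : (fl u (s.take i)).length = i * l := by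
      rw [length_fl hu, List.length_take, min_eq_left his]
    rw [hsplit, ← h1, List.drop_left]
  have hxl : (X.drop (i * l)).length < l := by
    rw [List.length_drop]
    rw [add_mul, one_mul] at hilt
    omega
  have hpre : X.drop (i * l) ++ w <+: fl u (s.drop i) := by
    rw [hdrop, ← hXY, List.append_assoc, List.drop_append_of_le_length hile, ← List.append_assoc]
    exact List.prefix_append _ _
  have h1 : l ≤ w.length := by
    have : 1 * l ≤ (m + 1) * l := Nat.mul_le_mul_right _ (by omega)
    omega
  have h2 := hat_of_prefix hl hu hpre hxl hT (by omega)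
  refine hs _ ?_ ?_ h2
  · exact (List.take_prefix _ _).isInfix.trans (List.drop_suffix _ _).isInfix
  · rw [List.length_take, lt_min_iff]
    have h3 : m + 1 ≤ ((X.drop (i * l)).length + w.length) / l := by
      rw [Nat.le_div_iff_mul_le hl]
      omega
    refine ⟨by omega, ?_⟩
    have h4 := hpre.length_le
    rw [List.length_append, length_fl hu] at h4
    have h5 : (m + 1) * l ≤ (s.drop i).length * l := by omega
    have := Nat.le_of_mul_le_mul_right h5 hl
    omega

theorem fl_rotate {u : A → List Bool} {l : ℕ} (hu : ∀ a, (u a).length = l) (C : List A) (j : ℕ) :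
    fl u (C.rotate j) = (fl u C).rotate (j * l) := by
  induction j generalizing C with
  | zero => simp
  | succ j ih =>
    cases C with
    | nil => simp
    | cons a C =>
      rw [List.rotate_cons_succ, ih, fl_append, fl_cons, fl_cons, fl_nil, List.append_nil]
      have h1 : (u a ++ fl u C).rotate ((j + 1) * l) = ((u a ++ fl u C).rotate l).rotate (j * l) := by
        rw [List.rotate_rotate, add_mul, one_mul, add_comm (j * l)]
      rw [h1]
      congr 1
      conv_rhs => rw [← hu a]
      rw [List.rotate_append_length_eq]

/-- No long arc on a circle. -/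
theorem circle {u : A → List Bool} {l : ℕ} (hl : 0 < l) (hu : ∀ a, (u a).length = l) {T : Set (List Bool)}
    {C : List A} {m : ℕ} (hC : ∀ a, IsArcA C a → m < a.length → a ∉ Hat u T) (w : List Bool) (hw : IsArc (fl u C) w)
    (hm : (m + 1) * l < w.length) : w ∉ T := by
  intro hT
  have hwl := flatten_rotate_isArc hw
  rw [length_fl hu] at hwl
  obtain ⟨i, hi⟩ := hw
  have hC0 : 0 < C.length := by
    rcases Nat.eq_zero_or_pos C.length with h0 | h0
    · rw [h0] at hwl; omega
    · exact h0
  -- reduce the rotation
  have hi2 : w <+: ((fl u C).rotate ((i / l) * l)).rotate (i % l) := by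
    rw [List.rotate_rotate, Nat.div_add_mod' i l]
    exact hi
  rw [← fl_rotate hu] at hi2
  set j : ℕ := i / l with hj
  set r : ℕ := i % l with hr
  have hrl : r < l := Nat.mod_lt _ hl
  have hCj : (C.rotate j).length = C.length := List.length_rotate _ _
  obtain ⟨a, D, hD⟩ : ∃ a D, C.rotate j = a :: D := by
    cases h : C.rotate j with
    | nil => rw [h, List.length_nil] at hCj; omega
    | cons a D => exact ⟨a, D, rfl⟩
  have hrle : r ≤ (fl u (C.rotate j)).length := by
    rw [length_fl hu, hCj]
    have : 1 * l ≤ C.length * l := Nat.mul_le_mul_right _ hC0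
    omega
  rw [List.rotate_eq_drop_append_take hrle] at hi2
  -- the prefix
  have hpre : (fl u (C.rotate j)).take r ++ w <+: fl u (C.rotate j ++ [a]) := by
    have h1 : (fl u (C.rotate j)).take r ++ w <+:
        (fl u (C.rotate j)).take r ++ ((fl u (C.rotate j)).drop r ++ (fl u (C.rotate j)).take r) :=
      (List.prefix_append_right_inj _).2 hi2
    rw [← List.append_assoc, List.take_append_drop] at h1
    refine h1.trans ?_
    rw [fl_append]
    refine (List.prefix_append_right_inj _).2 ?_
    rw [hD, fl_cons, fl_cons, fl_nil, List.append_nil, List.take_append_of_le_length (by rw [hu]; exact hrl.le)]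
    exact List.take_prefix _ _
  have hxl : ((fl u (C.rotate j)).take r).length = r := by
    rw [List.length_take, min_eq_left hrle]
  have h1 : l ≤ w.length := by
    have : 1 * l ≤ (m + 1) * l := Nat.mul_le_mul_right _ (by omega)
    omega
  have h2 := hat_of_prefix hl hu hpre (by rw [hxl]; exact hrl) hT (by omega)
  rw [hxl] at h2
  set e : ℕ := (r + w.length) / l with he
  have hee : e ≤ C.length := by
    rw [he, ← Nat.lt_succ_iff, Nat.div_lt_iff_lt_mul hl, Nat.succ_mul]
    omega
  rw [List.take_append_of_le_length (by rw [hCj]; exact hee)] at h2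
  refine hC _ ⟨j, List.take_prefix _ _⟩ ?_ h2
  rw [List.length_take, hCj, min_eq_left hee, he]
  have h3 : m + 1 ≤ (r + w.length) / l := by
    rw [Nat.le_div_iff_mul_le hl]
    omega
  omega

end Pool.Agent.PR
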