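import Pool.Agent.LibPR57.FinalA
import Pool.Agent.LibPO57.Res4

/-!
The master form for families of words over `2, 3` and its corollaries.
-/

set_option autoImplicit false

namespace Pool.Agent.PR

open Finset Pool.Agent.PO
open Pool.HB89.Stmt (zetaW)

/-- The factors of the products of words of `B`. -/
def Fact (B : Finset (List ℕ)) : Set (List ℕ) := {w | ∃ s : List (List ℕ), (∀ β ∈ s, β ∈ B) ∧ w <:+: s.flatten}

theorem Fact.letters {B : Finset (List ℕ)} (hB : ∀ β ∈ B, ∀ x ∈ β, x = 2 ∨ x = 3) {w : List ℕ} (hw : w ∈ Fact B) :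
    ∀ x ∈ w, x = 2 ∨ x = 3 := by
  obtain ⟨s, hs, h⟩ := hw
  intro x hx
  obtain ⟨β, hβ, hxβ⟩ := List.mem_flatten.1 (h.subset hx)
  exact hB β (hs β hβ) x hxβ

/-- Full growth in all families. -/
def FullB (T : Set (List ℕ)) : Prop :=
  ∀ n : ℕ, 0 < n → ∀ B : Finset (List ℕ), B.Nonempty → (∀ β ∈ B, β.length = n ∧ ∀ x ∈ β, x = 2 ∨ x = 3) →
    ∀ a b : ℝ, 0 < a → 0 < b → 1 < ∑ β ∈ B, a ^ β.count 2 * b ^ β.count 3 →
      ¬ Summable fun w : {w : List ℕ // w ∈ Fact B ∧ w ∈ T} => a ^ w.1.count 2 * b ^ w.1.count 3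

/-- The word in the letters `false`, `true`. -/
def toB (w : List ℕ) : List Bool := w.map fun x => decide (x = 3)

theorem map_toB {w : List ℕ} (hw : ∀ x ∈ w, x = 2 ∨ x = 3) : (toB w).map ltr = w := by
  unfold toB
  rw [List.map_map]
  conv_rhs => rw [← List.map_id w]
  refine List.map_congr_left fun x hx => ?_
  rcases hw x hx with rfl | rfl <;> rfl

/-- The master form for families. -/
theorem masterB {v : AbsoluteValue ℂ ℝ} (hv : Ult v) (y z : ℝ) (hy : 0 < y) (hyπ : y < v (Real.pi : ℂ) ^ 2)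
    (hz : 0 < z) (hzπ : z < v (Real.pi : ℂ) ^ 3) :
    FullB {w | y ^ w.count 2 * z ^ w.count 3 < v (zetaW w : ℂ)} := by
  intro n hn B hB hBn a b ha hb hab hs
  set c : Bool → ℝ := fun x => if x then z else y with hc
  set α : Bool → ℝ := fun x => if x then b else a with hα
  have hα0 : ∀ x, 0 < α x := by
    intro x; cases x
    · simpa [hα] using ha
    · simpa [hα] using hb
  have hgα : ∀ w : List Bool, gw α w = a ^ (w.map ltr).count 2 * b ^ (w.map ltr).count 3 := by
    intro w
    rw [gw_eq_count, (count_map_ltr w).1, (count_map_ltr w).2]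
    simp [hα]
  set u : {β // β ∈ B} → List Bool := fun β => toB β.1 with hu
  have hul : ∀ β, (u β).length = n := by
    intro β
    rw [hu]
    simp only [toB, List.length_map]
    exact (hBn β.1 β.2).1
  have hum : ∀ β, (u β).map ltr = β.1 := fun β => map_toB (hBn β.1 β.2).2
  have hinj : Function.Injective u := by
    intro β β' h
    refine Subtype.ext ?_
    rw [← hum β, ← hum β', h]
  set ρ : ℝ := ∑ β ∈ B, a ^ β.count 2 * b ^ β.count 3 with hρ
  have hρ0 : 0 < ρ := by linarith
  set p : {β // β ∈ B} → ℝ := fun β => gw α (u β) / ρ with hp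
  have hp0 : ∀ β, 0 < p β := fun β => div_pos (gw_pos hα0 _) hρ0
  have hp1 : ∑ β, p β = 1 := by
    simp only [hp]
    rw [← Finset.sum_div, div_eq_one_iff_eq hρ0.ne', hρ, ← Finset.sum_coe_sort B]
    refine Finset.sum_congr rfl fun β _ => ?_
    rw [hgα, hum]
  obtain ⟨β0, hβ0⟩ := hB
  refine main_bernoulliA hv c ?_ ?_ (⟨β0, hβ0⟩ : {β // β ∈ B}) hn hul p hp0 hp1 ρ hab
    (summable_hat hn hul hinj _ p ρ α hα0 (fun β => by rw [hp]; exact div_mul_cancel₀ _ hρ0.ne') ?_)
  · intro x
    cases x
    · simpa [hc] using hy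
    · simpa [hc] using hz
  · intro x
    cases x
    · simpa [hc] using hyπ
    · simpa [hc] using hzπ
  · have hfl : ∀ s : List {β // β ∈ B}, (fl u s).map ltr = (s.map Subtype.val).flatten := by
      intro s
      induction s with
      | nil => rfl
      | cons β s ih => rw [fl_cons, List.map_append, ih, hum, List.map_cons, List.flatten_cons]
    have hmem : ∀ w : {w : List Bool // w ∈ {w : List Bool | gw c w < v (ze w : ℂ)} ∧
        ∃ s : List {β // β ∈ B}, w <:+: fl u s}, (w.1.map ltr) ∈ Fact B ∧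
          (w.1.map ltr) ∈ {w : List ℕ | y ^ w.count 2 * z ^ w.count 3 < v (zetaW w : ℂ)} := by
      rintro ⟨w, hw, s, hws⟩
      refine ⟨⟨s.map Subtype.val, ?_, ?_⟩, ?_⟩
      · intro β hβ
        obtain ⟨β', -, rfl⟩ := List.mem_map.1 hβ
        exact β'.2
      · rw [← hfl]
        exact hws.map ltr
      · have h1 : gw c w < v (zetaW (w.map ltr) : ℂ) := hw
        rw [gw_eq_count] at h1
        show y ^ (w.map ltr).count 2 * z ^ (w.map ltr).count 3 < _
        rw [(count_map_ltr w).1, (count_map_ltr w).2]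
        simpa [hc] using h1
    have h2 := hs.comp_injective (i := fun w : {w : List Bool // w ∈ {w : List Bool | gw c w < v (ze w : ℂ)} ∧
        ∃ s : List {β // β ∈ B}, w <:+: fl u s} =>
      (⟨w.1.map ltr, hmem w⟩ : {w : List ℕ // w ∈ Fact B ∧ w ∈ {w | y ^ w.count 2 * z ^ w.count 3 < v (zetaW w : ℂ)}})) ?_
    · refine h2.congr fun w => ?_
      simp only [Function.comp]
      exact (hgα w.1).symm
    · intro w w' h
      have h4 : w.1.map ltr = w'.1.map ltr := congrArg (fun w => w.1) h
      exact Subtype.ext (map_ltr_injective h4)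

/-- Only words of large weight matter. -/
theorem FullB.mono_large {T T' : Set (List ℕ)} (h : FullB T) (N₀ : ℕ)
    (hsub : ∀ w : List ℕ, (∀ x ∈ w, x = 2 ∨ x = 3) → N₀ ≤ w.sum → w ∈ T → w ∈ T') : FullB T' := by
  classical
  intro n hn B hB hBn a b ha hb hab hs
  refine h n hn B hB hBn a b ha hb hab ?_
  set f : List ℕ → ℝ := fun w => a ^ (w.count 2) * b ^ (w.count 3) with hf
  have hf0 : ∀ w, 0 ≤ f w := fun w => by positivity
  have h1 : Summable (Set.indicator {w : List ℕ | w ∈ Fact B ∧ w ∈ T'} f) :=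
    summable_subtype_iff_indicator.1 hs
  set E : Set (List ℕ) := ⋃ N ∈ Finset.range N₀, Pool.Agent.HF.hoff N with hE
  have hEf : E.Finite := Set.Finite.biUnion (Finset.finite_toSet _) fun N _ => hoff_finite N
  have h2 : Summable (Set.indicator E f) := summable_of_hasFiniteSupport (hEf.subset fun w hw => by
    by_contra hw'
    exact hw (Set.indicator_of_notMem hw' f))
  suffices h9 : Summable (f ∘ ((↑) : {w : List ℕ | w ∈ Fact B ∧ w ∈ T} → List ℕ)) from h9
  refine summable_subtype_iff_indicator.2 (Summable.of_nonneg_of_le ?_ ?_ (h1.add h2))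
  · intro w
    exact Set.indicator_nonneg (fun w _ => hf0 w) w
  · intro w
    have n1 : 0 ≤ Set.indicator {w : List ℕ | w ∈ Fact B ∧ w ∈ T'} f w :=
      Set.indicator_nonneg (fun w _ => hf0 w) w
    have n2 : 0 ≤ Set.indicator E f w := Set.indicator_nonneg (fun w _ => hf0 w) w
    by_cases hw : w ∈ {w : List ℕ | w ∈ Fact B ∧ w ∈ T}
    · have hlet : ∀ x ∈ w, x = 2 ∨ x = 3 := Fact.letters (fun β hβ => (hBn β hβ).2) hw.1
      rw [Set.indicator_of_mem (by exact hw)]
      by_cases hN : N₀ ≤ w.sum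
      · have h3 : w ∈ {w : List ℕ | w ∈ Fact B ∧ w ∈ T'} := ⟨hw.1, hsub w hlet hN hw.2⟩
        rw [Set.indicator_of_mem h3]
        exact le_add_of_nonneg_right n2
      · have h3 : w ∈ E := by
          rw [hE, Set.mem_iUnion₂]
          exact ⟨w.sum, Finset.mem_range.2 (not_le.1 hN), hlet, rfl⟩
        rw [Set.indicator_of_mem h3]
        exact le_add_of_nonneg_left n1
    · rw [Set.indicator_of_notMem (by exact hw)]
      exact add_nonneg n1 n2

theorem FullB.mono {T T' : Set (List ℕ)} (h : FullB T) (hsub : T ⊆ T') : FullB T' :=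
  h.mono_large 0 fun _ _ _ hw => hsub hw

/-- Full growth in all families contains full growth. -/
theorem FullB.full {T : Set (List ℕ)} (h : FullB T) : Pool.Agent.PO.Full T := by
  refine full_of_master T fun a b ha hb hab => ?_
  have h1 := h 1 one_pos {[2], [3]} ⟨[2], by simp⟩ (by
    intro β hβ
    rw [Finset.mem_insert, Finset.mem_singleton] at hβ
    rcases hβ with rfl | rfl <;> simp) a b ha hb (by
      rw [Finset.sum_pair (by simp)]
      simpa using hab)
  intro hs
  apply h1
  have hF : ∀ w : List ℕ, w ∈ Fact {[2], [3]} ↔ ∀ x ∈ w, x = 2 ∨ x = 3 := by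
    intro w
    constructor
    · intro hw
      refine Fact.letters ?_ hw
      intro β hβ
      rw [Finset.mem_insert, Finset.mem_singleton] at hβ
      rcases hβ with rfl | rfl <;> simp
    · intro hw
      refine ⟨w.map fun x => [x], ?_, ?_⟩
      · intro β hβ
        obtain ⟨x, hx, rfl⟩ := List.mem_map.1 hβ
        rcases hw x hx with rfl | rfl <;> simp
      · have : (w.map fun x => [x]).flatten = w := by
          clear hw
          induction w with
          | nil => rfl
          | cons x w ih => simp [ih]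
        rw [this]
  have h2 := hs.comp_injective (i := fun w : {w : List ℕ // w ∈ Fact {[2], [3]} ∧ w ∈ T} =>
    (⟨w.1, (hF w.1).1 w.2.1, w.2.2⟩ : {w : List ℕ // (∀ x ∈ w, x = 2 ∨ x = 3) ∧ w ∈ T})) (by
      intro w w' hww
      exact Subtype.ext (congrArg (fun w => w.1) hww))
  exact h2

end Pool.Agent.PR
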