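import Pool.Agent.LibPR57.ResA
import Pool.Agent.LibPD57.A2

/-!
Full growth in all families and in all periodic words: corollaries.
-/

set_option autoImplicit false

namespace Pool.Agent.PR

open Finset Pool.Agent.PO
open Pool.HB89.Stmt (zetaW)

/-- Every periodic word, uniformly. -/
def FullC (T : Set (List ℕ)) : Prop :=
  ∀ m : ℕ, ∃ J : ℕ, ∀ u : List ℕ, u ≠ [] → (∀ x ∈ u, x = 2 ∨ x = 3) →
    ∃ w, w <:+: (List.replicate J u).flatten ∧ m < w.length ∧ w ∈ T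

/-- Both. -/
def Full3 (T : Set (List ℕ)) : Prop := FullB T ∧ FullC T

theorem masterC {v : AbsoluteValue ℂ ℝ} (hv : Ult v) (y z : ℝ) (hy : 0 < y) (hyπ : y < v (Real.pi : ℂ) ^ 2)
    (hz : 0 < z) (hzπ : z < v (Real.pi : ℂ) ^ 3) :
    FullC {w | y ^ w.count 2 * z ^ w.count 3 < v (zetaW w : ℂ)} := by
  intro m
  set c : Bool → ℝ := fun x => if x then z else y with hc
  obtain ⟨J, -, hJ⟩ := Pool.Agent.PD.periodic hv c (by
      intro x
      cases x
      · simpa [hc] using hy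
      · simpa [hc] using hz) (by
      intro x
      cases x
      · simpa [hc] using hyπ
      · simpa [hc] using hzπ) m
  refine ⟨J, fun u hu0 hu => ?_⟩
  obtain ⟨a, ha, hma, hga⟩ := hJ (toB u) (by
    intro h0
    apply hu0
    have := map_toB hu
    rw [h0] at this
    exact this.symm)
  refine ⟨a.map ltr, ?_, by rw [List.length_map]; exact hma, ?_⟩
  · have h1 := ha.map ltr
    have h2 : (Pool.Agent.PD.rp J (toB u)).map ltr = (List.replicate J u).flatten := by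
      unfold Pool.Agent.PD.rp
      rw [List.map_flatten, List.map_replicate, map_toB hu]
    rwa [h2] at h1
  · have h1 : gw c a < v (zetaW (a.map ltr) : ℂ) := hga
    rw [gw_eq_count] at h1
    show y ^ (a.map ltr).count 2 * z ^ (a.map ltr).count 3 < _
    rw [(count_map_ltr a).1, (count_map_ltr a).2]
    simpa [hc] using h1

theorem master3 {v : AbsoluteValue ℂ ℝ} (hv : Ult v) (y z : ℝ) (hy : 0 < y) (hyπ : y < v (Real.pi : ℂ) ^ 2)
    (hz : 0 < z) (hzπ : z < v (Real.pi : ℂ) ^ 3) :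
    Full3 {w | y ^ w.count 2 * z ^ w.count 3 < v (zetaW w : ℂ)} :=
  ⟨masterB hv y z hy hyπ hz hzπ, masterC hv y z hy hyπ hz hzπ⟩

theorem FullC.mono_large {T T' : Set (List ℕ)} (h : FullC T) (N₀ : ℕ)
    (hsub : ∀ w : List ℕ, (∀ x ∈ w, x = 2 ∨ x = 3) → N₀ ≤ w.sum → w ∈ T → w ∈ T') : FullC T' := by
  intro m
  obtain ⟨J, hJ⟩ := h (max m N₀)
  refine ⟨J, fun u hu0 hu => ?_⟩
  obtain ⟨w, hw, hm, hT⟩ := hJ u hu0 hu
  have hlet : ∀ x ∈ w, x = 2 ∨ x = 3 := by
    intro x hx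
    obtain ⟨β, hβ, hxβ⟩ := List.mem_flatten.1 (hw.subset hx)
    rw [List.eq_of_mem_replicate hβ] at hxβ
    exact hu x hxβ
  have hsum : w.length ≤ w.sum := by
    clear hw hm hT
    induction w with
    | nil => simp
    | cons x w ih =>
      have h1 := ih fun y hy => hlet y (List.mem_cons_of_mem _ hy)
      rw [List.length_cons, List.sum_cons]
      rcases hlet x (by simp) with rfl | rfl <;> omega
  have h1 := le_max_left m N₀
  have h2 := le_max_right m N₀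
  exact ⟨w, hw, by omega, hsub w hlet (by omega) hT⟩

theorem Full3.mono_large {T T' : Set (List ℕ)} (h : Full3 T) (N₀ : ℕ)
    (hsub : ∀ w : List ℕ, (∀ x ∈ w, x = 2 ∨ x = 3) → N₀ ≤ w.sum → w ∈ T → w ∈ T') : Full3 T' :=
  ⟨h.1.mono_large N₀ hsub, h.2.mono_large N₀ hsub⟩

theorem Full3.mono {T T' : Set (List ℕ)} (h : Full3 T) (hsub : T ⊆ T') : Full3 T' :=
  h.mono_large 0 fun _ _ _ hw => hsub hw

/-- The words with a large value. -/
theorem full3_large {v : AbsoluteValue ℂ ℝ} (hv : Ult v) (hP : 1 < v (Real.pi : ℂ)) (R : ℝ) :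
    Full3 {w | R < v (zetaW w : ℂ)} := by
  have hP0 : 0 < v (Real.pi : ℂ) := by linarith
  have h1 : 1 < v (Real.pi : ℂ) ^ (1 / 2 : ℝ) := Real.one_lt_rpow hP (by norm_num)
  obtain ⟨N₀, hN₀⟩ := pow_unbounded_of_one_lt R h1
  refine (master3 hv (v (Real.pi : ℂ) ^ (1 / 2 * 2 : ℝ)) (v (Real.pi : ℂ) ^ (1 / 2 * 3 : ℝ))
    (Real.rpow_pos_of_pos hP0 _) ?_ (Real.rpow_pos_of_pos hP0 _) ?_).mono_large N₀ ?_
  · rw [← Real.rpow_natCast]
    exact Real.rpow_lt_rpow_of_exponent_lt hP (by norm_num)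
  · rw [← Real.rpow_natCast]
    exact Real.rpow_lt_rpow_of_exponent_lt hP (by norm_num)
  · intro w hw hN hlt
    have hsum := sum_eq_count w hw
    have h2 : (v (Real.pi : ℂ) ^ (1 / 2 * 2 : ℝ)) ^ w.count 2 * (v (Real.pi : ℂ) ^ (1 / 2 * 3 : ℝ)) ^ w.count 3 =
        (v (Real.pi : ℂ) ^ (1 / 2 : ℝ)) ^ w.sum := by
      rw [Real.rpow_mul hP0.le, Real.rpow_mul hP0.le, hsum, pow_add, pow_mul, pow_mul]
      norm_num
    have hlt' : (v (Real.pi : ℂ) ^ (1 / 2 : ℝ)) ^ w.sum < v (zetaW w : ℂ) := by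
      rw [← h2]; exact hlt
    have h3 : (v (Real.pi : ℂ) ^ (1 / 2 : ℝ)) ^ N₀ ≤ (v (Real.pi : ℂ) ^ (1 / 2 : ℝ)) ^ w.sum :=
      pow_le_pow_right₀ h1.le hN
    exact lt_trans hN₀ (lt_of_le_of_lt h3 hlt')

/-- A large value is not a root. -/
theorem not_root_of_large {K : IntermediateField ℚ ℂ} {v : AbsoluteValue ℂ ℝ} (hv : Ult v) (U : Submodule K ℂ)
    {m M : ℝ} (hm : 0 < m) (hM : 1 ≤ M) (h : ∀ x ∈ U, x ≠ 0 → m ≤ v x ∧ v x ≤ M) (x : ℂ)
    (hx : max 1 (M / m) < v x) (P : Polynomial ℂ) (hP0 : P ≠ 0) (hPU : ∀ k, P.coeff k ∈ U) : P.eval x ≠ 0 := by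
  have h1 : 1 ≤ v x := ((le_max_left _ _).trans_lt hx).le
  have h2 : M < m * v x := by
    have := (le_max_right _ _).trans_lt hx
    rw [div_lt_iff₀ hm] at this
    linarith
  rw [Polynomial.eval_eq_sum_range]
  exact no_root hv hm hM _ h1 h2 (fun k => P.coeff k) (fun k hk => h _ (hPU k) hk) P.natDegree
    ⟨P.natDegree, le_rfl, by rw [Polynomial.coeff_natDegree]; exact Polynomial.leadingCoeff_ne_zero.2 hP0⟩

/-- No polynomial with coefficients in a finite-dimensional space. -/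
theorem full3_degree (K : IntermediateField ℚ ℂ) (hπ : Transcendental K (Real.pi : ℂ)) (U : Submodule K ℂ)
    (hU : FiniteDimensional K U) :
    Full3 {w | ∀ P : Polynomial ℂ, P ≠ 0 → (∀ k, P.coeff k ∈ U) → P.eval (zetaW w : ℂ) ≠ 0} := by
  obtain ⟨v, hv, hK, hP⟩ := exists_abs K hπ
  obtain ⟨m, M, hm, hM, h⟩ := exists_min_max K hv hK U hU
  exact (full3_large hv hP (max 1 (M / m))).mono fun w hw P hP0 hPU =>
    not_root_of_large hv U hm hM h _ hw P hP0 hPU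

/-- The relation form: a value larger than `v π ^ (κ * weight)`. -/
theorem relation_of_large {K : IntermediateField ℚ ℂ} {v : AbsoluteValue ℂ ℝ} (hv : Ult v)
    (hK : ∀ x : ℂ, x ∈ K → x ≠ 0 → v x = 1) (hP : 1 < v (Real.pi : ℂ)) (R : ℝ) (hR : 1 ≤ R) (x : ℂ) (hx : R < v x)
    (F : Polynomial (Polynomial K)) (hF : F ≠ 0) (hdeg : ∀ k, v (Real.pi : ℂ) ^ (F.coeff k).natDegree ≤ R) :
    F.eval₂ (Polynomial.aeval (Real.pi : ℂ) : Polynomial K →ₐ[K] ℂ).toRingHom x ≠ 0 := by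
  have hP0 : 0 < v (Real.pi : ℂ) := by linarith
  rw [Polynomial.eval₂_eq_sum_range]
  refine no_root hv (m := 1) one_pos hR _ (hR.trans hx.le) (by rwa [one_mul])
    (fun k => (Polynomial.aeval (Real.pi : ℂ) : Polynomial K →ₐ[K] ℂ).toRingHom (F.coeff k)) ?_ F.natDegree ?_
  · intro k hk
    have hk0 : F.coeff k ≠ 0 := fun h => hk (by simp [h])
    have h2 : v ((Polynomial.aeval (Real.pi : ℂ) : Polynomial K →ₐ[K] ℂ).toRingHom (F.coeff k)) =
        v (Real.pi : ℂ) ^ (F.coeff k).natDegree := aeval_pi hv hK hP _ hk0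
    rw [h2]
    exact ⟨one_le_pow₀ hP.le, hdeg k⟩
  · refine ⟨F.natDegree, le_rfl, fun h => ?_⟩
    have hl : F.coeff F.natDegree ≠ 0 := by
      rw [Polynomial.coeff_natDegree]; exact Polynomial.leadingCoeff_ne_zero.2 hF
    have h2 := aeval_pi hv hK hP _ hl
    have h3 : Polynomial.aeval (Real.pi : ℂ) (F.coeff F.natDegree) = 0 := h
    rw [h3, map_zero] at h2
    exact absurd h2.symm (pow_pos hP0 _).ne'

/-- Every algebraic relation between `π` and `ζ(w)` has degree `> κ * weight` in `π`. -/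
theorem full3_relation (K : IntermediateField ℚ ℂ) (hπ : Transcendental K (Real.pi : ℂ)) (κ : ℝ) (hκ : κ < 1) :
    Full3 {w | ∀ F : Polynomial (Polynomial K), F ≠ 0 → (∀ k, ((F.coeff k).natDegree : ℝ) ≤ κ * w.sum) →
      F.eval₂ (Polynomial.aeval (Real.pi : ℂ) : Polynomial K →ₐ[K] ℂ).toRingHom (zetaW w : ℂ) ≠ 0} := by
  obtain ⟨v, hv, hK, hP⟩ := exists_abs K hπ
  have hP0 : 0 < v (Real.pi : ℂ) := by linarith
  set κ' : ℝ := max κ 0 with hκ'
  have hκ1 : κ' < 1 := max_lt hκ one_pos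
  have hκ0 : 0 ≤ κ' := le_max_right _ _
  have hfull := master3 hv (v (Real.pi : ℂ) ^ (κ' * 2)) (v (Real.pi : ℂ) ^ (κ' * 3))
    (Real.rpow_pos_of_pos hP0 _)
    (by rw [← Real.rpow_natCast]; exact Real.rpow_lt_rpow_of_exponent_lt hP (by push_cast; linarith))
    (Real.rpow_pos_of_pos hP0 _)
    (by rw [← Real.rpow_natCast]; exact Real.rpow_lt_rpow_of_exponent_lt hP (by push_cast; linarith))
  refine hfull.mono_large 0 ?_
  intro w hw _ hlt F hF hdeg
  have hsum := sum_eq_count w hw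
  have h1 : (v (Real.pi : ℂ) ^ (κ' * 2)) ^ w.count 2 * (v (Real.pi : ℂ) ^ (κ' * 3)) ^ w.count 3 =
      v (Real.pi : ℂ) ^ (κ' * w.sum) := by
    rw [← Real.rpow_natCast, ← Real.rpow_natCast, ← Real.rpow_mul hP0.le, ← Real.rpow_mul hP0.le,
      ← Real.rpow_add hP0, hsum]
    congr 1
    push_cast
    ring
  have hlt' : v (Real.pi : ℂ) ^ (κ' * w.sum) < v (zetaW w : ℂ) := by
    rw [← h1]; exact hlt
  have hM : 1 ≤ v (Real.pi : ℂ) ^ (κ' * w.sum) := Real.one_le_rpow hP.le (by positivity)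
  refine relation_of_large hv hK hP _ hM _ hlt' F hF fun k => ?_
  rw [← Real.rpow_natCast]
  refine Real.rpow_le_rpow_of_exponent_le hP.le ((hdeg k).trans ?_)
  exact mul_le_mul_of_nonneg_right (le_max_left _ _) (Nat.cast_nonneg _)

end Pool.Agent.PR
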