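import Pool.Agent.LibPR57.HatA
import Pool.Agent.LibPS62.C1

/-!
Summability over `Hat u T` from the summability over the words of `T` which are factors of products of blocks.
-/

set_option autoImplicit false

namespace Pool.Agent.PR

open Finset Pool.Agent.PO

variable {A : Type}

theorem mu_mul_pow (u : A → List Bool) (p : A → ℝ) (ρ : ℝ) (α : Bool → ℝ) (h : ∀ a, p a * ρ = gw α (u a)) (s : List A) :
    PS.mu p s * ρ ^ s.length = gw α (fl u s) := by
  induction s with
  | nil => simp [PS.mu]
  | cons a s ih =>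
    rw [fl_cons, gw_append, ← ih, ← h]
    simp only [PS.mu, List.map_cons, List.prod_cons, List.length_cons, pow_succ]
    ring

theorem fl_inj {u : A → List Bool} {l : ℕ} (hu : ∀ a, (u a).length = l) (hinj : Function.Injective u) {s s' : List A}
    (hs : s.length = s'.length) (h : fl u s = fl u s') : s = s' := by
  induction s generalizing s' with
  | nil =>
    cases s' with
    | nil => rfl
    | cons a s' => simp at hs
  | cons a s ih =>
    cases s' with
    | nil => simp at hs
    | cons a' s' =>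
      rw [fl_cons, fl_cons] at h
      obtain ⟨h1, h2⟩ := List.append_inj h (by rw [hu, hu])
      rw [hinj h1, ih (by simpa using hs) h2]

theorem gw_le {c : Bool → ℝ} (hc : ∀ x, 0 < c x) {M : ℝ} (hM : 1 ≤ M) (h : ∀ x, c x ≤ M) (w : List Bool) {l : ℕ}
    (hw : w.length ≤ l) : gw c w ≤ M ^ l := by
  refine le_trans ?_ (pow_le_pow_right₀ hM hw)
  induction w generalizing l with
  | nil => simp
  | cons x w ih =>
    rw [gw_cons, List.length_cons, pow_succ, mul_comm]
    exact mul_le_mul (ih (l := w.length) le_rfl) (h x) (hc x).le (by positivity)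

/-- The summability. -/
theorem summable_hat [Fintype A] {u : A → List Bool} {l : ℕ} (hl : 0 < l) (hu : ∀ a, (u a).length = l)
    (hinj : Function.Injective u) (T : Set (List Bool)) (p : A → ℝ) (ρ : ℝ) (α : Bool → ℝ) (hα : ∀ x, 0 < α x)
    (h : ∀ a, p a * ρ = gw α (u a))
    (hT : Summable fun w : {w : List Bool // w ∈ T ∧ ∃ s : List A, w <:+: fl u s} => gw α w.1) :
    Summable fun s : Hat u T => PS.mu p s.1 * ρ ^ s.1.length := by
  obtain ⟨M, hM1, hM, hM'⟩ : ∃ M : ℝ, 1 ≤ M ∧ (∀ x, α x ≤ M) ∧ ∀ x, (α x)⁻¹ ≤ M := by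
    refine ⟨1 + α false + α true + (α false)⁻¹ + (α true)⁻¹, ?_, ?_, ?_⟩
    · have h1 := (hα false).le; have h2 := (hα true).le
      have h3 := (inv_pos.2 (hα false)).le; have h4 := (inv_pos.2 (hα true)).le
      linarith
    · have h1 := (hα false).le; have h2 := (hα true).le
      have h3 := (inv_pos.2 (hα false)).le; have h4 := (inv_pos.2 (hα true)).le
      intro x; cases x <;> linarith
    · have h1 := (hα false).le; have h2 := (hα true).le
      have h3 := (inv_pos.2 (hα false)).le; have h4 := (inv_pos.2 (hα true)).le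
      intro x; cases x <;> linarith
  have key : ∀ s : Hat u T, ∃ w : {w : List Bool // w ∈ T ∧ ∃ s : List A, w <:+: fl u s}, ∃ x : IL l, ∃ q : List Bool,
      x.1 ++ w.1 = fl u s.1 ++ q ∧ q.length < l := by
    rintro ⟨s, w, hw, x, q, hq, ⟨a, t, hat, hxa⟩, hq'⟩
    rw [hu] at hxa
    have hql : q.length < l := by
      rcases hq' with rfl | ⟨b, hb1, hb2⟩
      · exact hl
      · have h1 := hb1.length_le
        rw [hu] at h1
        refine lt_of_le_of_ne h1 fun h2 => hb2 ?_
        exact hb1.eq_of_length (by rw [h2, hu])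
    refine ⟨⟨w, hw, ?_⟩, ⟨x, hxa⟩, q, hq, hql⟩
    rcases hq' with rfl | ⟨b, hb1, hb2⟩
    · refine ⟨s, ?_⟩
      rw [List.append_nil] at hq
      rw [← hq]
      exact (List.suffix_append _ _).isInfix
    · refine ⟨s ++ [b], ?_⟩
      rw [fl_append, fl_cons, fl_nil, List.append_nil]
      obtain ⟨r, hr⟩ := hb1
      rw [← hr, ← List.append_assoc, ← hq]
      exact (List.suffix_append _ _).isInfix.trans (List.prefix_append _ _).isInfix
  choose fw fx fq hfq hql using key
  -- the length
  have hlen : ∀ s : Hat u T, s.1.length = ((fx s).1.length + (fw s).1.length) / l := by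
    intro s
    have h1 := congrArg List.length (hfq s)
    rw [List.length_append, List.length_append, length_fl hu] at h1
    rw [h1, add_comm, Nat.add_mul_div_right _ _ hl, Nat.div_eq_of_lt (hql s), zero_add]
  have hinj2 : Function.Injective fun s : Hat u T => ((fw s, fx s) : _ × IL l) := by
    intro s s' hss
    have e1 : fw s = fw s' := congrArg Prod.fst hss
    have e2 : fx s = fx s' := congrArg Prod.snd hss
    have h1 : s.1.length = s'.1.length := by rw [hlen, hlen, e1, e2]
    refine Subtype.ext (fl_inj hu hinj h1 ?_)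
    have h2 : fl u s.1 ++ fq s = fl u s'.1 ++ fq s' := by rw [← hfq, ← hfq, e1, e2]
    exact (List.append_inj h2 (by rw [length_fl hu, length_fl hu, h1])).1
  have hprod : Summable fun y : {w : List Bool // w ∈ T ∧ ∃ s : List A, w <:+: fl u s} × IL l => gw α y.1.1 * 1 :=
    Summable.mul_of_nonneg hT (Summable.of_finite (f := fun _ : IL l => (1 : ℝ)))
      (fun w => (gw_pos hα _).le) (fun _ => zero_le_one)
  have h2 := (hprod.comp_injective hinj2).mul_left (M ^ l * M ^ l)
  refine Summable.of_nonneg_of_le (fun s => ?_) (fun s => ?_) h2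
  · rw [mu_mul_pow u p ρ α h]
    exact (gw_pos hα _).le
  · rw [mu_mul_pow u p ρ α h]
    show gw α (fl u s.1) ≤ M ^ l * M ^ l * (gw α (fw s).1 * 1)
    have h3 : gw α (fx s).1 * gw α (fw s).1 = gw α (fl u s.1) * gw α (fq s) := by
      rw [← gw_append, ← gw_append, hfq]
    have h4 : gw α (fx s).1 ≤ M ^ l := gw_le hα hM1 hM _ (fx s).2.le
    have h5 : (gw α (fq s))⁻¹ ≤ M ^ l := by
      have h6 : (gw α (fq s))⁻¹ = gw (fun x => (α x)⁻¹) (fq s) := by
        generalize fq s = w
        induction w with
        | nil => simp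
        | cons x w ih => rw [gw_cons, gw_cons, mul_inv, ih]
      rw [h6]
      exact gw_le (fun x => inv_pos.2 (hα x)) hM1 hM' _ (hql s).le
    have h7 : gw α (fl u s.1) = gw α (fx s).1 * gw α (fw s).1 * (gw α (fq s))⁻¹ := by
      rw [h3, mul_assoc, mul_inv_cancel₀ (gw_pos hα _).ne', mul_one]
    rw [h7, mul_one]
    have h8 : 0 < gw α (fw s).1 := gw_pos hα _
    have h9 : 0 < (gw α (fq s))⁻¹ := inv_pos.2 (gw_pos hα _)
    calc gw α (fx s).1 * gw α (fw s).1 * (gw α (fq s))⁻¹
        ≤ M ^ l * gw α (fw s).1 * M ^ l := by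
          refine mul_le_mul (mul_le_mul_of_nonneg_right h4 h8.le) h5 h9.le (by positivity)
      _ = M ^ l * M ^ l * gw α (fw s).1 := by ring

end Pool.Agent.PR
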