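import Pool.Agent.LibPR57.CSelA
import Pool.Agent.LibPR57.SumA
import Pool.Agent.LibPO57.Main

/-!
The selection theorem for block families, in terms of words in the letters.
-/

set_option autoImplicit false

namespace Pool.Agent.PR

open Finset Pool.Agent.PO

variable {A : Type}

/-- The circle word: `Sum.inl i` stands for `Y i`, `Sum.inr m` for `c1 ^ m`. -/
def cwl {ι : Type*} (Y : ι → List Bool) (c1 : List Bool) (circ : List (ι ⊕ ℕ)) : List Bool :=
  (circ.map (Sum.elim Y (fun m => (List.replicate m c1).flatten))).flatten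

@[simp] theorem cwl_nil {ι : Type*} (Y : ι → List Bool) (c1 : List Bool) : cwl Y c1 [] = [] := rfl

@[simp] theorem cwl_inl {ι : Type*} (Y : ι → List Bool) (c1 : List Bool) (i : ι) (c : List (ι ⊕ ℕ)) :
    cwl Y c1 (Sum.inl i :: c) = Y i ++ cwl Y c1 c := rfl

@[simp] theorem cwl_inr {ι : Type*} (Y : ι → List Bool) (c1 : List Bool) (m : ℕ) (c : List (ι ⊕ ℕ)) :
    cwl Y c1 (Sum.inr m :: c) = (List.replicate m c1).flatten ++ cwl Y c1 c := rfl

theorem cwl_append {ι : Type*} (Y : ι → List Bool) (c1 : List Bool) (c c' : List (ι ⊕ ℕ)) :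
    cwl Y c1 (c ++ c') = cwl Y c1 c ++ cwl Y c1 c' := by
  simp [cwl]

theorem fl_replicate (u : A → List Bool) (m : ℕ) (a : A) : fl u (List.replicate m a) = (List.replicate m (u a)).flatten := by
  simp [fl]

theorem fl_flatten (u : A → List Bool) (s : List (List A)) : fl u s.flatten = (s.map (fl u)).flatten := by
  induction s with
  | nil => rfl
  | cons a s ih => rw [List.flatten_cons, fl_append, ih, List.map_cons, List.flatten_cons]

theorem fl_cwA {ι : Type*} (u : A → List Bool) (c0 : A) (z : ι → List (List A)) (circ : List (ι ⊕ ℕ)) :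
    fl u (cwA c0 z circ) = cwl (fun i => ((z i).map (fl u)).flatten) (u c0) circ := by
  induction circ with
  | nil => rfl
  | cons a circ ih =>
    have h : cwA c0 z (a :: circ) = (Sum.elim (fun i => (z i).flatten) (fun m => List.replicate m c0) a) ++ cwA c0 z circ := rfl
    rw [h, fl_append, ih]
    cases a with
    | inl i => rw [cwl_inl, Sum.elim_inl, fl_flatten]
    | inr m => rw [cwl_inr, Sum.elim_inr, fl_replicate]

/-- The selection theorem in letters. -/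
theorem selL [Fintype A] (c0 : A) {u : A → List Bool} {l : ℕ} (hl : 0 < l) (hu : ∀ a, (u a).length = l)
    (p : A → ℝ) (hp : ∀ x, 0 < p x) (hp1 : ∑ a, p a = 1) (ρ : ℝ)
    (hρ : 1 < ρ) (T : Set (List Bool)) (hT : Summable fun s : Hat u T => PS.mu p s.1 * ρ ^ s.1.length) :
    ∃ m0 : ℕ, ∀ (J N : ℕ) (C c t : ℝ), 0 < t → ∃ Kmax : ℕ, ∀ Q : ℕ, ∃ m1 : ℕ, m0 ≤ m1 ∧ ∀ n0 : ℕ, 0 < n0 → l ∣ n0 →
      ∀ F : ℕ → List (List Bool) → ℝ,
        (∀ j < J, ∀ s s' : List (List Bool), (∀ B ∈ s, Pc T m0 n0 B) → (∀ B ∈ s', Pc T m0 n0 B) →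
          s.length + s'.length ≤ 2 * Kmax → F j (s ++ s') ≤ F j s + F j s') →
        (∀ j < J, ∀ s : List (List Bool), (∀ B ∈ s, Pc T m0 n0 B) → s.length ≤ 2 * Kmax →
          -(c * s.length) ≤ F j s ∧ F j s ≤ C * s.length) →
        ∃ (K : ℕ) (e : ℕ → ℝ) (z : Fin N → List (List Bool)), 0 < K ∧ K ≤ Kmax ∧
          (∀ i, (z i).length = K) ∧ (∀ i, ∀ B ∈ z i, Pc T m0 n0 B) ∧ (∀ i, Even (wt (z i).flatten)) ∧
          (∀ i, ∀ j < J, F j (z i) ≤ K * (e j + t)) ∧
          (∀ i i', i ≠ i' → ∀ j < J, 2 * K * (e j - t) ≤ F j (z i ++ z i')) ∧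
          (∀ circ : List (Fin N ⊕ ℕ), circ.length ≤ Q → (∀ m, Sum.inr m ∈ circ → m ≤ Q) →
            (circ.filterMap Sum.getLeft?).Nodup → (∃ i, Sum.inl i ∈ circ) →
            ∀ a, IsArc (cwl (fun i => (z i).flatten) (u c0) circ) a → m1 < a.length → a ∉ T) := by
  obtain ⟨m0, hm0⟩ := selection c0 (fun a => wt (u a)) p hp hp1 ρ hρ (Hat u T) hT
  refine ⟨(m0 + 1) * l, fun J N C c t ht => ?_⟩
  obtain ⟨Kmax, hK⟩ := hm0 J N C c t ht
  refine ⟨Kmax, fun Q => ?_⟩
  obtain ⟨m1, hm1, hm⟩ := hK Q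
  refine ⟨(m1 + 1) * l, Nat.mul_le_mul_right _ (by omega), fun n0 hn0 hdvd F hsub hbd => ?_⟩
  obtain ⟨n1, rfl⟩ := hdvd
  have hn1 : 0 < n1 := Nat.pos_of_mul_pos_left hn0
  have hPc : ∀ B, PcA (Hat u T) m0 n1 B → Pc T ((m0 + 1) * l) (l * n1) (fl u B) := by
    rintro B ⟨h1, h2⟩
    refine ⟨by rw [length_fl hu, h1, mul_comm], fun a ha hal => line hl hu h2 a ha hal⟩
  have hPcm : ∀ s : List (List A), (∀ B ∈ s, PcA (Hat u T) m0 n1 B) →
      ∀ B ∈ s.map (fl u), Pc T ((m0 + 1) * l) (l * n1) B := by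
    intro s hs B hB
    obtain ⟨B', hB', rfl⟩ := List.mem_map.1 hB
    exact hPc _ (hs _ hB')
  obtain ⟨K, e, z, hK0, hKm, hzl, hzP, hze, hzu, hzlo, hzc⟩ := hm n1 hn1 (fun j s => F j (s.map (fl u)))
    (fun j hj s s' hs hs' hl' => by
      rw [List.map_append]
      exact hsub j hj _ _ (hPcm s hs) (hPcm s' hs') (by simpa using hl'))
    (fun j hj s hs hl' => by
      have h1 := hbd j hj (s.map (fl u)) (hPcm s hs) (by simpa using hl')
      rwa [List.length_map] at h1)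
  refine ⟨K, e, fun i => (z i).map (fl u), hK0, hKm, fun i => by rw [List.length_map, hzl], fun i => hPcm _ (hzP i), ?_,
    hzu, ?_, ?_⟩
  · intro i
    show Even (wt ((z i).map (fl u)).flatten)
    rw [← fl_flatten, wt_fl]
    exact hze i
  · intro i i' hi j hj
    have h1 := hzlo i i' hi j hj
    rw [List.map_append] at h1
    exact h1
  · intro circ h1 h2 h3 h4 a ha hal
    rw [← fl_cwA] at ha
    exact circle hl hu (hzc circ h1 h2 h3 h4) a ha hal

end Pool.Agent.PR
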